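import Mathlib

/-!
# HALL GAPS, block E1: Minkowski's inequality for divisor sums with a smooth multiplier (helper33)
-/

set_option autoImplicit false
open MeasureTheory Real
open scoped ContDiff

namespace Pool.Agent.Helper33.HG

/-- Minkowski's inequality for a finite sum: if `e u = ∫ f x * g x u`, then `∑ w |e|² ≤ (∫ |f| sqrt(∑ w |g x|²))²`. -/
theorem mink_abs {ι : Type*} (S : Finset ι) (w : ι → ℝ) (hw : ∀ u ∈ S, 0 ≤ w u) (f : ℝ → ℂ) (g : ℝ → ι → ℂ)
    (hf : Integrable f) (hg : ∀ u ∈ S, Continuous fun x => g x u) (hgb : ∀ u ∈ S, ∃ B : ℝ, ∀ x, ‖g x u‖ ≤ B)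
    (e : ι → ℂ) (he : ∀ u ∈ S, e u = ∫ x, f x * g x u) :
    ∑ u ∈ S, w u * ‖e u‖ ^ 2 ≤ (∫ x, ‖f x‖ * Real.sqrt (∑ u ∈ S, w u * ‖g x u‖ ^ 2)) ^ 2 := by
  classical
  set E : ℝ := ∑ u ∈ S, w u * ‖e u‖ ^ 2 with hE
  have hE0 : 0 ≤ E := Finset.sum_nonneg fun u hu => mul_nonneg (hw u hu) (by positivity)
  set Q : ℝ → ℝ := fun x => ∑ u ∈ S, w u * ‖g x u‖ ^ 2 with hQ
  have hQ0 : ∀ x, 0 ≤ Q x := fun x => Finset.sum_nonneg fun u hu => mul_nonneg (hw u hu) (by positivity)
  have hQc : Continuous Q := by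
    apply continuous_finsetSum
    intro u hu
    exact continuous_const.mul ((hg u hu).norm.pow 2)
  have hQb : ∃ B : ℝ, ∀ x, Q x ≤ B := by
    choose! B hB using hgb
    refine ⟨∑ u ∈ S, w u * B u ^ 2, fun x => Finset.sum_le_sum fun u hu => ?_⟩
    have := hB u hu x
    have h0 := norm_nonneg (g x u)
    exact mul_le_mul_of_nonneg_left (pow_le_pow_left₀ h0 this 2) (hw u hu)
  obtain ⟨B, hB⟩ := hQb
  have hint : Integrable (fun x => ‖f x‖ * Real.sqrt (Q x)) := by
    refine (hf.norm.mul_const (Real.sqrt B)).mono' ?_ ?_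
    · exact hf.norm.aestronglyMeasurable.mul (hQc.sqrt).aestronglyMeasurable
    · refine Filter.Eventually.of_forall fun x => ?_
      rw [Real.norm_eq_abs, abs_of_nonneg (by positivity)]
      gcongr
      exact hB x
  have hint2 : ∀ u ∈ S, Integrable (fun x => f x * g x u) := by
    intro u hu
    obtain ⟨B, hB⟩ := hgb u hu
    refine (hf.norm.mul_const B).mono' ?_ ?_
    · exact hf.aestronglyMeasurable.mul (hg u hu).aestronglyMeasurable
    · refine Filter.Eventually.of_forall fun x => ?_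
      rw [norm_mul]
      gcongr
      exact hB x
  -- the quadratic form as an integral
  have h1 : (E : ℂ) = ∫ x, f x * ∑ u ∈ S, ((w u : ℝ) : ℂ) * (starRingEnd ℂ) (e u) * g x u := by
    have : ∀ x, f x * ∑ u ∈ S, ((w u : ℝ) : ℂ) * (starRingEnd ℂ) (e u) * g x u
        = ∑ u ∈ S, (((w u : ℝ) : ℂ) * (starRingEnd ℂ) (e u)) * (f x * g x u) := by
      intro x
      rw [Finset.mul_sum]
      refine Finset.sum_congr rfl fun u _ => ?_
      ring
    simp_rw [this]
    rw [integral_finsetSum _ (fun u hu => (hint2 u hu).const_mul _)]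
    rw [hE]
    push_cast
    refine Finset.sum_congr rfl fun u hu => ?_
    rw [integral_const_mul, ← he u hu, mul_assoc, Complex.conj_mul']
  have h2 : ∀ x, ‖f x * ∑ u ∈ S, ((w u : ℝ) : ℂ) * (starRingEnd ℂ) (e u) * g x u‖
      ≤ Real.sqrt E * (‖f x‖ * Real.sqrt (Q x)) := by
    intro x
    rw [norm_mul]
    have h3 : ‖∑ u ∈ S, ((w u : ℝ) : ℂ) * (starRingEnd ℂ) (e u) * g x u‖ ≤ Real.sqrt E * Real.sqrt (Q x) := by
      calc ‖∑ u ∈ S, ((w u : ℝ) : ℂ) * (starRingEnd ℂ) (e u) * g x u‖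
          ≤ ∑ u ∈ S, ‖((w u : ℝ) : ℂ) * (starRingEnd ℂ) (e u) * g x u‖ := norm_sum_le _ _
        _ = ∑ u ∈ S, (Real.sqrt (w u) * ‖e u‖) * (Real.sqrt (w u) * ‖g x u‖) := by
          refine Finset.sum_congr rfl fun u hu => ?_
          rw [norm_mul, norm_mul, Complex.norm_real, Real.norm_eq_abs, abs_of_nonneg (hw u hu), RCLike.norm_conj]
          have := Real.mul_self_sqrt (hw u hu)
          calc w u * ‖e u‖ * ‖g x u‖ = (Real.sqrt (w u) * Real.sqrt (w u)) * ‖e u‖ * ‖g x u‖ := by rw [this]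
            _ = _ := by ring
        _ ≤ Real.sqrt (∑ u ∈ S, (Real.sqrt (w u) * ‖e u‖) ^ 2) * Real.sqrt (∑ u ∈ S, (Real.sqrt (w u) * ‖g x u‖) ^ 2) :=
          Real.sum_mul_le_sqrt_mul_sqrt _ _ _
        _ = Real.sqrt E * Real.sqrt (Q x) := by
          congr 2
          · refine Finset.sum_congr rfl fun u hu => ?_
            rw [mul_pow, Real.sq_sqrt (hw u hu)]
          · refine Finset.sum_congr rfl fun u hu => ?_
            rw [mul_pow, Real.sq_sqrt (hw u hu)]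
    calc ‖f x‖ * ‖∑ u ∈ S, ((w u : ℝ) : ℂ) * (starRingEnd ℂ) (e u) * g x u‖ ≤ ‖f x‖ * (Real.sqrt E * Real.sqrt (Q x)) := by gcongr
      _ = _ := by ring
  set I : ℝ := ∫ x, ‖f x‖ * Real.sqrt (Q x) with hI
  have h4 : E ≤ Real.sqrt E * I := by
    have : ‖(E : ℂ)‖ = E := by rw [Complex.norm_real, Real.norm_eq_abs, abs_of_nonneg hE0]
    rw [← this]
    nth_rewrite 1 [h1]
    refine (norm_integral_le_of_norm_le (hint.const_mul (Real.sqrt E)) (Filter.Eventually.of_forall h2)).trans ?_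
    rw [integral_const_mul, this]
  have hI0 : 0 ≤ I := integral_nonneg fun x => by positivity
  rcases hE0.eq_or_lt with h | h
  · rw [← h]; positivity
  · have hs : 0 < Real.sqrt E := Real.sqrt_pos.2 h
    have h5 : Real.sqrt E ≤ I := by
      have : Real.sqrt E * Real.sqrt E ≤ Real.sqrt E * I := by rw [Real.mul_self_sqrt hE0]; exact h4
      exact le_of_mul_le_mul_left this hs
    calc E = Real.sqrt E ^ 2 := (Real.sq_sqrt hE0).symm
      _ ≤ I ^ 2 := pow_le_pow_left₀ hs.le h5 2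

end Pool.Agent.Helper33.HG
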