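import Pool.Agent.Helper69.HG.Stm
import Pool.Agent.Helper33.HG.Mink

/-!
# HALL GAPS, block TW: Minkowski's inequality in the twist (helper33)
-/

set_option autoImplicit false
open MeasureTheory Real Finset
open Pool.Agent.Helper69.HG (kF eN lamx Vp SB TW)

namespace Pool.Agent.Helper33.HG

theorem lamx_continuous (T : ℝ) (a : ℕ → ℝ) (N : ℕ) : Continuous fun ξ : ℝ => lamx T a ξ N := by
  unfold lamx
  apply continuous_finsetSum
  intro m hm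
  have hm0 : (m : ℂ) ≠ 0 := Nat.cast_ne_zero.2 (Nat.pos_of_mem_divisors hm).ne'
  apply continuous_const.mul
  apply Continuous.const_cpow
  · fun_prop
  · exact Or.inl hm0

theorem norm_lamx_le (T : ℝ) (a : ℕ → ℝ) (ξ : ℝ) (N : ℕ) : ‖lamx T a ξ N‖ ≤ ∑ m ∈ N.divisors, |a m| := by
  unfold lamx
  refine (norm_sum_le _ _).trans (Finset.sum_le_sum fun m hm => ?_)
  have hm0 : 0 < m := Nat.pos_of_mem_divisors hm
  rw [norm_mul, Complex.norm_real, Real.norm_eq_abs]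
  have : ‖(m : ℂ) ^ (-(Complex.I * (ξ / Real.log T)))‖ = 1 := by
    rw [Complex.norm_natCast_cpow_of_pos hm0]
    have : (-(Complex.I * ((ξ : ℂ) / (Real.log T : ℂ)))).re = 0 := by
      rw [← Complex.ofReal_div]; simp
    rw [this, Real.rpow_zero]
  rw [this, mul_one]

theorem nat_cpow33 {m : ℕ} (hm : 0 < m) (T ξ : ℝ) :
    (m : ℂ) ^ (Complex.I * (ξ / Real.log T)) = Complex.exp (Complex.I * (ξ * (Real.log m / Real.log T : ℝ))) := by
  have hm0 : (m : ℂ) ≠ 0 := Nat.cast_ne_zero.2 hm.ne'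
  rw [Complex.cpow_def_of_ne_zero hm0, ← Complex.natCast_log]
  congr 1
  push_cast
  ring

theorem nat_cpow33' {m : ℕ} (hm : 0 < m) (T ξ : ℝ) :
    (m : ℂ) ^ (-(Complex.I * (ξ / Real.log T))) = Complex.exp (-(Complex.I * (ξ * (Real.log m / Real.log T : ℝ)))) := by
  have hm0 : (m : ℂ) ≠ 0 := Nat.cast_ne_zero.2 hm.ne'
  rw [Complex.cpow_def_of_ne_zero hm0, ← Complex.natCast_log]
  congr 1
  push_cast
  ring

/-- The coefficients as an integral of twisted divisor sums. -/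
theorem eN_eq (F : ℝ → ℂ) (hF : Integrable F) (T : ℝ) (a : ℕ → ℝ) (ξ₀ : ℝ) (N : ℕ) (hN : 0 < N) :
    eN F T a ξ₀ N = ∫ ξ, F ξ * (Complex.exp (Complex.I * ((ξ + ξ₀ : ℝ) * (Real.log N / Real.log T : ℝ))) * lamx T a (ξ + ξ₀) N) := by
  have h1 : ∀ ξ : ℝ, F ξ * (Complex.exp (Complex.I * ((ξ + ξ₀ : ℝ) * (Real.log N / Real.log T : ℝ))) * lamx T a (ξ + ξ₀) N)
      = ∑ m ∈ N.divisors, (((a m : ℂ) * ((N / m : ℕ) : ℂ) ^ (Complex.I * (ξ₀ / Real.log T))) *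
        (F ξ * Complex.exp (Complex.I * (ξ * (Real.log (N / m : ℕ) / Real.log T : ℝ))))) := by
    intro ξ
    unfold lamx
    rw [Finset.mul_sum, Finset.mul_sum]
    refine Finset.sum_congr rfl fun m hm => ?_
    have hm0 : 0 < m := Nat.pos_of_mem_divisors hm
    have hdvd : m ∣ N := Nat.dvd_of_mem_divisors hm
    have hq : 0 < N / m := Nat.div_pos (Nat.le_of_dvd hN hdvd) hm0
    have hlog : Real.log ((N / m : ℕ) : ℝ) = Real.log N - Real.log m := by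
      rw [Nat.cast_div hdvd (by exact_mod_cast hm0.ne'), Real.log_div (by exact_mod_cast hN.ne') (by exact_mod_cast hm0.ne')]
    rw [nat_cpow33 hq, nat_cpow33' hm0, hlog]
    have e : Complex.exp (Complex.I * ((ξ + ξ₀ : ℝ) * (Real.log N / Real.log T : ℝ))) *
        Complex.exp (-(Complex.I * (((ξ + ξ₀ : ℝ) : ℂ) * (Real.log m / Real.log T : ℝ))))
        = Complex.exp (Complex.I * (ξ₀ * ((Real.log N - Real.log m) / Real.log T : ℝ))) *
          Complex.exp (Complex.I * (ξ * ((Real.log N - Real.log m) / Real.log T : ℝ))) := by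
      rw [← Complex.exp_add, ← Complex.exp_add]
      congr 1
      push_cast
      ring
    calc F ξ * (Complex.exp (Complex.I * ((ξ + ξ₀ : ℝ) * (Real.log N / Real.log T : ℝ))) *
          ((a m : ℂ) * Complex.exp (-(Complex.I * (((ξ + ξ₀ : ℝ) : ℂ) * (Real.log m / Real.log T : ℝ))))))
        = F ξ * (a m : ℂ) * (Complex.exp (Complex.I * ((ξ + ξ₀ : ℝ) * (Real.log N / Real.log T : ℝ))) *
          Complex.exp (-(Complex.I * (((ξ + ξ₀ : ℝ) : ℂ) * (Real.log m / Real.log T : ℝ))))) := by ring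
      _ = _ := by rw [e]; ring
  simp_rw [h1]
  rw [integral_finsetSum]
  · unfold eN
    refine Finset.sum_congr rfl fun m _ => ?_
    rw [integral_const_mul]
    change _ = _ * kF F (Real.log (N / m : ℕ) / Real.log T)
    ring
  · intro m _
    apply Integrable.const_mul
    refine hF.norm.mono' ?_ ?_
    · exact hF.aestronglyMeasurable.mul (Continuous.aestronglyMeasurable (by fun_prop))
    · refine Filter.Eventually.of_forall fun ξ => ?_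
      rw [norm_mul]
      have : Complex.I * ((ξ : ℂ) * ((Real.log ((N / m : ℕ) : ℝ) / Real.log T : ℝ) : ℂ))
          = ((ξ * (Real.log ((N / m : ℕ) : ℝ) / Real.log T) : ℝ) : ℂ) * Complex.I := by
        push_cast; ring
      rw [this, Complex.norm_exp_ofReal_mul_I, mul_one]

theorem tw_core (F : ℝ → ℂ) (hFc : Continuous F) (hF : Integrable (fun ξ : ℝ => (1 + |ξ|) ^ 2 * ‖F ξ‖)) (T ε : ℝ) (hε : 0 < ε)
    (a : ℕ → ℝ) (ξ₀ : ℝ) (S : Finset ℕ) (hS : ∀ N ∈ S, 0 < N) (K : ℝ) (hK : 0 ≤ K)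
    (h : ∀ ξ : ℝ, ∑ N ∈ S, ‖lamx T a ξ N‖ ^ 2 / N ≤ K * (1 + ε * |ξ|) ^ 4) :
    ∑ N ∈ S, ‖eN F T a ξ₀ N‖ ^ 2 / N ≤ K * (∫ ξ : ℝ, (1 + ε * |ξ + ξ₀|) ^ 2 * ‖F ξ‖) ^ 2 := by
  have hFi : Integrable F := by
    refine hF.mono' hFc.aestronglyMeasurable (Filter.Eventually.of_forall fun ξ => ?_)
    have : 0 ≤ |ξ| := abs_nonneg ξ
    exact le_mul_of_one_le_left (norm_nonneg _) (one_le_pow₀ (by linarith))
  have hint : Integrable (fun ξ : ℝ => (1 + ε * |ξ + ξ₀|) ^ 2 * ‖F ξ‖) := by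
    refine (hF.const_mul ((1 + ε + ε * |ξ₀|) ^ 2)).mono' ?_ ?_
    · apply Continuous.aestronglyMeasurable
      exact (by fun_prop : Continuous fun ξ : ℝ => (1 + ε * |ξ + ξ₀|) ^ 2).mul hFc.norm
    · refine Filter.Eventually.of_forall fun ξ => ?_
      rw [Real.norm_eq_abs, abs_of_nonneg (by positivity), ← mul_assoc, ← mul_pow]
      have h1 : 1 + ε * |ξ + ξ₀| ≤ (1 + ε + ε * |ξ₀|) * (1 + |ξ|) := by
        have h2 := abs_add_le ξ ξ₀
        have h3 := abs_nonneg ξ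
        have h4 := abs_nonneg ξ₀
        have h5 : ε * |ξ + ξ₀| ≤ ε * (|ξ| + |ξ₀|) := by gcongr
        have h6 : 0 ≤ ε * |ξ₀| * |ξ| := by positivity
        nlinarith
      gcongr
  have hm := mink_abs S (fun N => 1 / (N : ℝ)) (fun N _ => by positivity) F
    (fun ξ N => Complex.exp (Complex.I * ((ξ + ξ₀ : ℝ) * (Real.log N / Real.log T : ℝ))) * lamx T a (ξ + ξ₀) N)
    hFi (fun N _ => by
      have h1 := (lamx_continuous T a N).comp (continuous_id.add (continuous_const (y := ξ₀)))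
      exact (by fun_prop : Continuous fun ξ : ℝ => Complex.exp (Complex.I * ((ξ + ξ₀ : ℝ) * (Real.log N / Real.log T : ℝ)))).mul h1)
    (fun N _ => ⟨∑ m ∈ N.divisors, |a m|, fun ξ => by
      have : Complex.I * (((ξ + ξ₀ : ℝ) : ℂ) * ((Real.log N / Real.log T : ℝ) : ℂ))
          = (((ξ + ξ₀) * (Real.log N / Real.log T) : ℝ) : ℂ) * Complex.I := by
        push_cast; ring
      rw [norm_mul, this, Complex.norm_exp_ofReal_mul_I, one_mul]
      exact norm_lamx_le T a (ξ + ξ₀) N⟩)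
    (fun N => eN F T a ξ₀ N) (fun N hN => eN_eq F hFi T a ξ₀ N (hS N hN))
  have e0 : ∑ N ∈ S, ‖eN F T a ξ₀ N‖ ^ 2 / N = ∑ N ∈ S, 1 / (N : ℝ) * ‖eN F T a ξ₀ N‖ ^ 2 := by
    refine Finset.sum_congr rfl fun N _ => ?_
    ring
  rw [e0]
  refine hm.trans ?_
  have h1 : ∀ ξ : ℝ, ‖F ξ‖ * Real.sqrt (∑ N ∈ S, 1 / (N : ℝ) *
      ‖Complex.exp (Complex.I * ((ξ + ξ₀ : ℝ) * (Real.log N / Real.log T : ℝ))) * lamx T a (ξ + ξ₀) N‖ ^ 2)
      ≤ Real.sqrt K * ((1 + ε * |ξ + ξ₀|) ^ 2 * ‖F ξ‖) := by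
    intro ξ
    have h2 : ∑ N ∈ S, 1 / (N : ℝ) * ‖Complex.exp (Complex.I * ((ξ + ξ₀ : ℝ) * (Real.log N / Real.log T : ℝ))) * lamx T a (ξ + ξ₀) N‖ ^ 2
        = ∑ N ∈ S, ‖lamx T a (ξ + ξ₀) N‖ ^ 2 / N := by
      refine Finset.sum_congr rfl fun N _ => ?_
      have : Complex.I * (((ξ + ξ₀ : ℝ) : ℂ) * ((Real.log N / Real.log T : ℝ) : ℂ))
          = (((ξ + ξ₀) * (Real.log N / Real.log T) : ℝ) : ℂ) * Complex.I := by
        push_cast; ring
      rw [norm_mul, this, Complex.norm_exp_ofReal_mul_I, one_mul]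
      ring
    rw [h2]
    have h3 : Real.sqrt (∑ N ∈ S, ‖lamx T a (ξ + ξ₀) N‖ ^ 2 / N) ≤ Real.sqrt K * (1 + ε * |ξ + ξ₀|) ^ 2 := by
      have h4 := Real.sqrt_le_sqrt (h (ξ + ξ₀))
      have h5 : Real.sqrt (K * (1 + ε * |ξ + ξ₀|) ^ 4) = Real.sqrt K * (1 + ε * |ξ + ξ₀|) ^ 2 := by
        rw [Real.sqrt_mul hK]
        congr 1
        have : (1 + ε * |ξ + ξ₀|) ^ 4 = ((1 + ε * |ξ + ξ₀|) ^ 2) ^ 2 := by ring
        rw [this, Real.sqrt_sq (by positivity)]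
      rw [← h5]; exact h4
    calc ‖F ξ‖ * Real.sqrt (∑ N ∈ S, ‖lamx T a (ξ + ξ₀) N‖ ^ 2 / N) ≤ ‖F ξ‖ * (Real.sqrt K * (1 + ε * |ξ + ξ₀|) ^ 2) := by gcongr
      _ = _ := by ring
  have h2 : ∫ ξ, ‖F ξ‖ * Real.sqrt (∑ N ∈ S, 1 / (N : ℝ) *
      ‖Complex.exp (Complex.I * ((ξ + ξ₀ : ℝ) * (Real.log N / Real.log T : ℝ))) * lamx T a (ξ + ξ₀) N‖ ^ 2)
      ≤ Real.sqrt K * ∫ ξ : ℝ, (1 + ε * |ξ + ξ₀|) ^ 2 * ‖F ξ‖ := by
    rw [← integral_const_mul]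
    apply integral_mono_of_nonneg (Filter.Eventually.of_forall fun ξ => by positivity) (hint.const_mul _)
    exact Filter.Eventually.of_forall h1
  have h3 : 0 ≤ ∫ ξ, ‖F ξ‖ * Real.sqrt (∑ N ∈ S, 1 / (N : ℝ) *
      ‖Complex.exp (Complex.I * ((ξ + ξ₀ : ℝ) * (Real.log N / Real.log T : ℝ))) * lamx T a (ξ + ξ₀) N‖ ^ 2) :=
    integral_nonneg fun ξ => by positivity
  calc _ ≤ (Real.sqrt K * ∫ ξ : ℝ, (1 + ε * |ξ + ξ₀|) ^ 2 * ‖F ξ‖) ^ 2 := pow_le_pow_left₀ h3 h2 2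
    _ = K * (∫ ξ : ℝ, (1 + ε * |ξ + ξ₀|) ^ 2 * ‖F ξ‖) ^ 2 := by rw [mul_pow, Real.sq_sqrt hK]

theorem Vp_nonneg33 (T ε : ℝ) : 0 ≤ Vp T ε := by
  unfold Vp
  apply Finset.prod_nonneg
  intro p hp
  have hp2 := (Finset.mem_filter.1 hp).2
  have : (2 : ℝ) ≤ p := by exact_mod_cast hp2.two_le
  rw [sub_nonneg, div_le_one (by linarith)]
  linarith

/-- Block TW. -/
theorem tw (hSB : SB) : TW := by
  obtain ⟨C, hC, b₀, hb⟩ := hSB
  refine ⟨C, hC, b₀, fun b hbb => ?_⟩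
  obtain ⟨ε₀, hε₀, he⟩ := hb b hbb
  refine ⟨ε₀, hε₀, fun ε hε hεε => ?_⟩
  obtain ⟨T₀, hT⟩ := he ε hε hεε
  refine ⟨max T₀ 1, fun T hTT a ha F hFc hF ξ₀ => ?_⟩
  have hT1 : 1 ≤ T := (le_max_right _ _).trans hTT
  have hmain := hT T ((le_max_left _ _).trans hTT) a ha
  constructor
  · intro Y₁ Y₂ h1 h2 h3
    have hY1 : 1 ≤ Y₁ := (Real.one_le_rpow hT1 (by norm_num)).trans h1
    have hlog : 0 ≤ Real.log (Y₂ / Y₁) := Real.log_nonneg (by rw [le_div_iff₀ (by linarith)]; linarith)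
    have hV := Vp_nonneg33 T ε
    have := tw_core F hFc hF T ε hε a ξ₀ (Finset.Ioc ⌊Y₁⌋₊ ⌊Y₂⌋₊) (fun N hN => by
      have := (Finset.mem_Ioc.1 hN).1; omega) (C * Vp T ε * (Real.log (Y₂ / Y₁) + 1)) (by positivity) (fun ξ => by
        have := (hmain ξ).1 Y₁ Y₂ h1 h2 h3
        linarith)
    linarith
  · have := tw_core F hFc hF T ε hε a ξ₀ (Finset.Icc 1 ⌊T⌋₊) (fun N hN => by
      have := (Finset.mem_Icc.1 hN).1; omega) (C / ε) (by positivity) (fun ξ => by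
        have := (hmain ξ).2
        calc _ ≤ C * (1 + ε * |ξ|) ^ 4 / ε := this
          _ = _ := by ring)
    calc _ ≤ _ := this
      _ = _ := by ring

end Pool.Agent.Helper33.HG
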