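import Mathlib

/-!
# HALL GAPS, block E1: the smooth cut kap and its Fourier transform (helper33)
-/

set_option autoImplicit false
open MeasureTheory Real FourierTransform
open scoped ContDiff

namespace Pool.Agent.Helper33.HG

/-- The smooth cut: 1 on `[-5, 1/2 - d]`, 0 outside `[-6, 1/2 + d]`. -/
noncomputable def kapf (d u : ℝ) : ℝ :=
  Real.smoothTransition ((1 / 2 + d - u) / (2 * d)) * Real.smoothTransition (u + 6)

theorem kapf_nonneg (d u : ℝ) : 0 ≤ kapf d u :=
  mul_nonneg (Real.smoothTransition.nonneg _) (Real.smoothTransition.nonneg _)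

theorem kapf_le_one (d u : ℝ) : kapf d u ≤ 1 :=
  mul_le_one₀ (Real.smoothTransition.le_one _) (Real.smoothTransition.nonneg _) (Real.smoothTransition.le_one _)

theorem kapf_eq_one {d u : ℝ} (hd : 0 < d) (h1 : -5 ≤ u) (h2 : u ≤ 1 / 2 - d) : kapf d u = 1 := by
  have e1 : Real.smoothTransition ((1 / 2 + d - u) / (2 * d)) = 1 := by
    apply Real.smoothTransition.one_of_one_le
    rw [le_div_iff₀ (by positivity)]; linarith
  have e2 : Real.smoothTransition (u + 6) = 1 := Real.smoothTransition.one_of_one_le (by linarith)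
  rw [kapf, e1, e2, mul_one]

theorem kapf_zero_right {d u : ℝ} (hd : 0 < d) (h : 1 / 2 + d ≤ u) : kapf d u = 0 := by
  have e1 : Real.smoothTransition ((1 / 2 + d - u) / (2 * d)) = 0 := by
    apply Real.smoothTransition.zero_of_nonpos
    apply div_nonpos_of_nonpos_of_nonneg (by linarith) (by positivity)
  rw [kapf, e1, zero_mul]

theorem kapf_zero_left {d u : ℝ} (h : u ≤ -6) : kapf d u = 0 := by
  have e1 : Real.smoothTransition (u + 6) = 0 := Real.smoothTransition.zero_of_nonpos (by linarith)
  rw [kapf, e1, mul_zero]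

theorem st_symm33 (x : ℝ) : Real.smoothTransition x + Real.smoothTransition (1 - x) = 1 := by
  have h := Real.smoothTransition.pos_denom x
  have h2 : expNegInvGlue (1 - x) + expNegInvGlue (1 - (1 - x)) = expNegInvGlue x + expNegInvGlue (1 - x) := by
    rw [sub_sub_cancel, add_comm]
  rw [Real.smoothTransition, Real.smoothTransition, h2, ← add_div, div_self h.ne']

theorem kapf_symm {d a : ℝ} (hd : 0 < d) (h1 : -5 ≤ a) (h2 : a ≤ 6) : kapf d a + kapf d (1 - a) = 1 := by
  have e1 : Real.smoothTransition (a + 6) = 1 := Real.smoothTransition.one_of_one_le (by linarith)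
  have e2 : Real.smoothTransition (1 - a + 6) = 1 := Real.smoothTransition.one_of_one_le (by linarith)
  have e3 : (1 / 2 + d - (1 - a)) / (2 * d) = 1 - (1 / 2 + d - a) / (2 * d) := by
    field_simp; ring
  rw [kapf, kapf, e1, e2, mul_one, mul_one, e3, st_symm33]

theorem kapf_contDiff (d : ℝ) {n : ℕ∞} : ContDiff ℝ n (kapf d) := by
  unfold kapf
  apply ContDiff.mul
  · apply Real.smoothTransition.contDiff.comp
    exact (contDiff_const.sub contDiff_id).div_const _
  · apply Real.smoothTransition.contDiff.comp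
    exact contDiff_id.add contDiff_const

theorem kapf_eq_add {d : ℝ} (hd : 0 < d) (hd2 : d ≤ 1 / 8) (u : ℝ) :
    kapf d u = Real.smoothTransition ((1 / 2 + d - u) / (2 * d)) + Real.smoothTransition (u + 6) - 1 := by
  rcases le_total u 0 with h | h
  · have e1 : Real.smoothTransition ((1 / 2 + d - u) / (2 * d)) = 1 := by
      apply Real.smoothTransition.one_of_one_le
      rw [le_div_iff₀ (by positivity)]; linarith
    rw [kapf, e1]; ring
  · have e2 : Real.smoothTransition (u + 6) = 1 := Real.smoothTransition.one_of_one_le (by linarith)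
    rw [kapf, e2]; ring

theorem kapf_hasCompactSupport (d : ℝ) (hd : 0 < d) : HasCompactSupport (kapf d) := by
  apply HasCompactSupport.intro (isCompact_Icc (a := (-6 : ℝ)) (b := 1 / 2 + d))
  intro x hx
  rw [Set.mem_Icc, not_and_or, not_le, not_le] at hx
  rcases hx with h | h
  · exact kapf_zero_left h.le
  · exact kapf_zero_right hd h.le

/-- The derivative of the smooth transition, complex valued. -/
noncomputable def hst (x : ℝ) : ℂ := ((deriv Real.smoothTransition x : ℝ) : ℂ)

theorem hst_zero {x : ℝ} (h : x < 0 ∨ 1 < x) : hst x = 0 := by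
  have : deriv Real.smoothTransition x = 0 := by
    rcases h with h | h
    · have : Real.smoothTransition =ᶠ[nhds x] fun _ => 0 := by
        filter_upwards [Iio_mem_nhds h] with y hy
        exact Real.smoothTransition.zero_of_nonpos (le_of_lt hy)
      rw [this.deriv_eq]; simp
    · have : Real.smoothTransition =ᶠ[nhds x] fun _ => 1 := by
        filter_upwards [Ioi_mem_nhds h] with y hy
        exact Real.smoothTransition.one_of_one_le (le_of_lt hy)
      rw [this.deriv_eq]; simp
  rw [hst, this]; simp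

theorem hst_contDiff : ContDiff ℝ ∞ hst := by
  have h : ContDiff ℝ ∞ Real.smoothTransition := Real.smoothTransition.contDiff
  have h2 : ContDiff ℝ ∞ (deriv Real.smoothTransition) := by
    have := (contDiff_infty_iff_deriv.1 h).2
    exact this
  exact Complex.ofRealCLM.contDiff.comp h2

theorem hst_compact : HasCompactSupport hst := by
  apply HasCompactSupport.intro (isCompact_Icc (a := (0 : ℝ)) (b := 1))
  intro x hx
  rw [Set.mem_Icc, not_and_or, not_le, not_le] at hx
  exact hst_zero hx

theorem fh_bound : ∃ C : ℝ, 0 < C ∧ ∀ x : ℝ, (1 + |x|) ^ 4 * ‖𝓕 hst x‖ ≤ C := by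
  let h : SchwartzMap ℝ ℂ := hst_compact.toSchwartzMap hst_contDiff
  let g : SchwartzMap ℝ ℂ := 𝓕 h
  have hg : ∀ x, g x = 𝓕 hst x := by
    intro x
    have : (g : ℝ → ℂ) = 𝓕 (h : ℝ → ℂ) := SchwartzMap.fourier_coe h
    rw [this]; rfl
  have key := fun x => SchwartzMap.one_add_le_sup_seminorm_apply (𝕜 := ℝ) (m := (4, 0)) (k := 4) (n := 0) (le_refl _) (le_refl _) g x
  refine ⟨2 ^ 4 * (Finset.Iic (4, 0)).sup (fun m => SchwartzMap.seminorm ℝ m.1 m.2) g + 1, ?_, ?_⟩
  · have := key 0
    have h0 : 0 ≤ (1 + ‖(0 : ℝ)‖) ^ 4 * ‖iteratedFDeriv ℝ 0 (g : ℝ → ℂ) 0‖ := by positivity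
    simp only at this
    linarith
  · intro x
    have := key x
    rw [norm_iteratedFDeriv_zero, Real.norm_eq_abs, hg] at this
    simp only at this
    linarith

end Pool.Agent.Helper33.HG
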