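import Mathlib
import Pool.Agent.Helper33.HG.Kap

/-!
# HALL GAPS, block E1: Fourier transform of the smooth cut (helper33)
-/

set_option autoImplicit false
open MeasureTheory Real FourierTransform
open scoped ContDiff

namespace Pool.Agent.Helper33.HG

theorem fourier_affine33 (f : ℝ → ℂ) {a : ℝ} (ha : 0 < a) (b x : ℝ) :
    𝓕 (fun u : ℝ => f ((b - u) / a)) x
      = (a : ℂ) * Complex.exp (((-2 * π * b * x : ℝ) : ℂ) * Complex.I) * 𝓕 f (-(a * x)) := by
  rw [fourier_real_eq_integral_exp_smul, fourier_real_eq_integral_exp_smul]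
  set G : ℝ → ℂ := fun w => Complex.exp (((-2 * π * (b - w) * x : ℝ) : ℂ) * Complex.I) • f (w / a) with hG
  set H : ℝ → ℂ := fun v => Complex.exp (((-2 * π * (b - a * v) * x : ℝ) : ℂ) * Complex.I) • f v with hH
  have e1 : (fun v : ℝ => Complex.exp (((-2 * π * v * x : ℝ) : ℂ) * Complex.I) • f ((b - v) / a))
      = fun v => G (b - v) := by
    funext v
    simp only [hG]
    rw [sub_sub_cancel]
  have e2 : G = fun w => H (w / a) := by
    funext w
    simp only [hG, hH]
    rw [mul_div_cancel₀ _ ha.ne']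
  have e3 : ∀ v, H v = Complex.exp (((-2 * π * b * x : ℝ) : ℂ) * Complex.I) *
      (Complex.exp (((-2 * π * v * (-(a * x)) : ℝ) : ℂ) * Complex.I) • f v) := by
    intro v
    simp only [hH, smul_eq_mul]
    rw [← mul_assoc, ← Complex.exp_add]
    congr 2
    push_cast
    ring
  rw [e1, integral_sub_left_eq_self G volume b, e2, Measure.integral_comp_div H a, abs_of_pos ha]
  simp_rw [e3]
  rw [integral_const_mul, Complex.real_smul]
  ring

/-- The cut, complex valued. -/
noncomputable def kc (d : ℝ) (u : ℝ) : ℂ := ((kapf d u : ℝ) : ℂ)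

/-- Its Fourier transform. -/
noncomputable def kh (d : ℝ) : ℝ → ℂ := 𝓕 (kc d)

theorem kc_contDiff (d : ℝ) {n : ℕ∞} : ContDiff ℝ n (kc d) :=
  Complex.ofRealCLM.contDiff.comp (kapf_contDiff d)

theorem kc_compact {d : ℝ} (hd : 0 < d) : HasCompactSupport (kc d) := by
  have := kapf_hasCompactSupport d hd
  exact this.comp_left (g := fun x : ℝ => (x : ℂ)) (by simp)

theorem kc_continuous (d : ℝ) : Continuous (kc d) := (kc_contDiff d (n := 0)).continuous

theorem kc_integrable {d : ℝ} (hd : 0 < d) : Integrable (kc d) :=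
  (kc_continuous d).integrable_of_hasCompactSupport (kc_compact hd)

theorem hst_continuous : Continuous hst := (hst_contDiff).continuous

theorem hst_integrable : Integrable hst :=
  hst_continuous.integrable_of_hasCompactSupport hst_compact

theorem kc_deriv {d : ℝ} (hd : 0 < d) (hd2 : d ≤ 1 / 8) :
    deriv (kc d) = fun u => (-(1 / (2 * d)) : ℂ) * hst ((1 / 2 + d - u) / (2 * d)) + hst ((-6 - u) / (-1)) := by
  funext u
  have hS : ∀ x, HasDerivAt Real.smoothTransition (deriv Real.smoothTransition x) x := fun x =>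
    ((Real.smoothTransition.contDiff (n := 1)).differentiable (by norm_num) x).hasDerivAt
  have h1 : HasDerivAt (fun u : ℝ => Real.smoothTransition ((1 / 2 + d - u) / (2 * d)))
      (deriv Real.smoothTransition ((1 / 2 + d - u) / (2 * d)) * (-1 / (2 * d))) u := by
    have := ((hasDerivAt_id u).const_sub (1 / 2 + d)).div_const (2 * d)
    exact (hS _).comp u this
  have h2 : HasDerivAt (fun u : ℝ => Real.smoothTransition (u + 6))
      (deriv Real.smoothTransition (u + 6) * 1) u := by
    have := (hasDerivAt_id u).add_const (6 : ℝ)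
    exact (hS _).comp u this
  have h3 := ((h1.add h2).sub_const 1)
  have h4 : (kapf d) = fun u => Real.smoothTransition ((1 / 2 + d - u) / (2 * d)) + Real.smoothTransition (u + 6) - 1 :=
    funext (kapf_eq_add hd hd2)
  have h5 : HasDerivAt (kapf d) (deriv Real.smoothTransition ((1 / 2 + d - u) / (2 * d)) * (-1 / (2 * d))
      + deriv Real.smoothTransition (u + 6) * 1) u := by
    rw [h4]; exact h3
  have h6 := h5.ofReal_comp
  have h7 : (fun y : ℝ => ((kapf d y : ℝ) : ℂ)) = kc d := rfl
  rw [h7] at h6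
  rw [h6.deriv, hst, hst]
  have e : (-6 - u) / (-1) = u + 6 := by ring
  rw [e]
  push_cast
  ring

theorem kh_deriv_bound {d : ℝ} (hd : 0 < d) (hd2 : d ≤ 1 / 8) (x : ℝ) :
    2 * π * |x| * ‖kh d x‖ ≤ ‖𝓕 hst (-(2 * d * x))‖ + ‖𝓕 hst x‖ := by
  have hder := Real.fourier_deriv (kc_integrable hd) ((kc_contDiff d (n := 1)).differentiable (by norm_num))
    (by
      have : Continuous (deriv (kc d)) := (kc_contDiff d (n := 1)).continuous_deriv (by norm_num)
      exact this.integrable_of_hasCompactSupport (kc_compact hd).deriv)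
  have h1 := congrFun hder x
  rw [kc_deriv hd hd2] at h1
  have hA : Integrable (fun u : ℝ => hst ((1 / 2 + d - u) / (2 * d))) := by
    have := (hst_integrable.comp_div (g := hst) (R := 2 * d) (by positivity)).comp_sub_left (1 / 2 + d)
    exact this
  have hB : Integrable (fun u : ℝ => hst ((-6 - u) / (-1))) := by
    have := (hst_integrable.comp_div (g := hst) (R := (-1 : ℝ)) (by norm_num)).comp_sub_left (-6)
    exact this
  have e1 : 𝓕 (fun u : ℝ => (-(1 / (2 * d)) : ℂ) * hst ((1 / 2 + d - u) / (2 * d)) + hst ((-6 - u) / (-1))) x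
      = (-(1 / (2 * d)) : ℂ) * 𝓕 (fun u : ℝ => hst ((1 / 2 + d - u) / (2 * d))) x
        + 𝓕 (fun u : ℝ => hst ((-6 - u) / (-1))) x := by
    rw [fourier_real_eq_integral_exp_smul, fourier_real_eq_integral_exp_smul, fourier_real_eq_integral_exp_smul,
      ← integral_const_mul, ← integral_add]
    · congr 1
      funext v
      simp only [smul_eq_mul]
      ring
    · apply Integrable.const_mul
      have := (Real.fourierIntegral_convergent_iff (μ := volume) x).2 hA
      refine this.congr (Filter.Eventually.of_forall fun v => ?_)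
      simp only [Circle.smul_def, Real.fourierChar_apply]
      congr 2
      simp
      ring
    · have := (Real.fourierIntegral_convergent_iff (μ := volume) x).2 hB
      refine this.congr (Filter.Eventually.of_forall fun v => ?_)
      simp only [Circle.smul_def, Real.fourierChar_apply]
      congr 2
      simp
      ring
  rw [e1] at h1
  have e2 := fourier_affine33 hst (a := 2 * d) (by positivity) (1 / 2 + d) x
  have n2 : ‖𝓕 (fun u : ℝ => hst ((1 / 2 + d - u) / (2 * d))) x‖ = 2 * d * ‖𝓕 hst (-(2 * d * x))‖ := by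
    rw [e2, norm_mul, norm_mul, Complex.norm_exp_ofReal_mul_I, mul_one, Complex.norm_real, Real.norm_eq_abs,
      abs_of_pos (by positivity)]
  have n3 : ‖𝓕 (fun u : ℝ => hst ((-6 - u) / (-1))) x‖ = ‖𝓕 hst x‖ := by
    have e3 : (fun u : ℝ => hst ((-6 - u) / (-1))) = fun u : ℝ => hst (u + 6) := by
      funext u; congr 1; ring
    have e4 := congrFun (Fourier.fourierIntegral_comp_add_right 𝐞 volume hst 6) x
    rw [e3]
    have e5 : 𝓕 (fun u : ℝ => hst (u + 6)) x = 𝐞 (6 * x) • 𝓕 hst x := by
      have : 𝓕 (fun u : ℝ => hst (u + 6)) x = Fourier.fourierIntegral 𝐞 volume (hst ∘ fun v => v + 6) x := by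
        rw [fourier_real_eq]; rfl
      rw [this, e4]
      have : 𝓕 hst x = Fourier.fourierIntegral 𝐞 volume hst x := by
        rw [fourier_real_eq]; rfl
      rw [this]
    rw [e5, Circle.norm_smul]
  have h2 : ‖(2 * π * Complex.I * x) • 𝓕 (kc d) x‖ = 2 * π * |x| * ‖kh d x‖ := by
    rw [norm_smul, kh]
    congr 1
    rw [norm_mul, norm_mul, norm_mul]
    simp [abs_of_pos Real.pi_pos]
  rw [← h2, ← h1]
  refine (norm_add_le _ _).trans ?_
  rw [norm_mul, n2, n3]
  have n4 : ‖(-(1 / (2 * d)) : ℂ)‖ = 1 / (2 * d) := by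
    rw [norm_neg]
    have : (1 / (2 * d) : ℂ) = ((1 / (2 * d) : ℝ) : ℂ) := by push_cast; ring
    rw [this, Complex.norm_real, Real.norm_eq_abs, abs_of_pos (by positivity)]
  rw [n4]
  have : 1 / (2 * d) * (2 * d * ‖𝓕 hst (-(2 * d * x))‖) = ‖𝓕 hst (-(2 * d * x))‖ := by
    field_simp
  rw [this]

end Pool.Agent.Helper33.HG
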