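import Mathlib
import Pool.Agent.Helper33.HG.Kap2

/-!
# HALL GAPS, block E1: size and L1 norm of the Fourier transform of the smooth cut (helper33)
-/

set_option autoImplicit false
open MeasureTheory Real FourierTransform
open scoped ContDiff

namespace Pool.Agent.Helper33.HG

theorem kh_le_seven {d : ℝ} (hd : 0 < d) (hd2 : d ≤ 1 / 8) (x : ℝ) : ‖kh d x‖ ≤ 7 := by
  have h1 : ‖kh d x‖ ≤ ∫ v, ‖kc d v‖ := by
    rw [kh, fourier_real_eq]
    refine (norm_integral_le_integral_norm _).trans (le_of_eq ?_)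
    congr 1
    funext v
    exact Circle.norm_smul _ _
  have h2 : ∫ v, ‖kc d v‖ ≤ ∫ v, (Set.Icc (-6 : ℝ) 1).indicator (fun _ => (1 : ℝ)) v := by
    apply integral_mono (kc_integrable hd).norm
    · exact (integrable_indicator_iff measurableSet_Icc).2 (integrableOn_const (by simp))
    · intro v
      by_cases hv : v ∈ Set.Icc (-6 : ℝ) 1
      · rw [Set.indicator_of_mem hv]
        simp only [kc, Complex.norm_real, Real.norm_eq_abs]
        rw [abs_of_nonneg (kapf_nonneg _ _)]
        exact kapf_le_one _ _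
      · rw [Set.indicator_of_notMem hv]
        simp only [kc, Complex.norm_real, Real.norm_eq_abs]
        rw [Set.mem_Icc, not_and_or, not_le, not_le] at hv
        rcases hv with h | h
        · rw [kapf_zero_left h.le]; simp
        · rw [kapf_zero_right hd (by linarith)]; simp
  rw [integral_indicator measurableSet_Icc] at h2
  simp at h2
  rcases h2 with h2 | h2 <;> linarith

/-- Absolute bound for the Fourier transform of the cut. -/
theorem kh_bound : ∃ C : ℝ, 0 < C ∧ ∀ d : ℝ, 0 < d → d ≤ 1 / 8 → ∀ x : ℝ,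
    ‖kh d x‖ ≤ C / ((1 + |x|) * (1 + d * |x|) ^ 3) := by
  obtain ⟨C0, hC0, hb⟩ := fh_bound
  refine ⟨20 + 2 * C0, by positivity, ?_⟩
  intro d hd hd2 x
  have hx := abs_nonneg x
  have hdx : 0 ≤ d * |x| := by positivity
  rw [le_div_iff₀ (by positivity)]
  rcases le_total |x| 1 with h | h
  · have h1 := kh_le_seven hd hd2 x
    have h2 : (1 + |x|) * (1 + d * |x|) ^ 3 ≤ 2 * (9 / 8) ^ 3 := by
      have : 1 + d * |x| ≤ 9 / 8 := by nlinarith
      gcongr
      linarith
    calc ‖kh d x‖ * ((1 + |x|) * (1 + d * |x|) ^ 3) ≤ 7 * (2 * (9 / 8) ^ 3) := by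
          gcongr
      _ ≤ 20 + 2 * C0 := by norm_num; linarith
  · have h1 := kh_deriv_bound hd hd2 x
    have h2 := hb x
    have h3 := hb (-(2 * d * x))
    have e : |-(2 * d * x)| = 2 * (d * |x|) := by
      rw [abs_neg, abs_mul, abs_of_pos (by positivity : 0 < 2 * d)]; ring
    rw [e] at h3
    have h4 : (1 + d * |x|) ^ 3 * ‖𝓕 hst (-(2 * d * x))‖ ≤ C0 := by
      refine le_trans ?_ h3
      gcongr
      calc (1 + d * |x|) ^ 3 ≤ (1 + 2 * (d * |x|)) ^ 3 := pow_le_pow_left₀ (by linarith) (by linarith) 3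
        _ ≤ (1 + 2 * (d * |x|)) ^ 4 := by
          apply pow_le_pow_right₀ (by linarith) (by norm_num)
    have h5 : (1 + d * |x|) ^ 3 * ‖𝓕 hst x‖ ≤ C0 := by
      refine le_trans ?_ h2
      gcongr
      have h51 : 1 + d * |x| ≤ 1 + |x| := by nlinarith
      calc (1 + d * |x|) ^ 3 ≤ (1 + |x|) ^ 3 := pow_le_pow_left₀ (by linarith) h51 3
        _ ≤ (1 + |x|) ^ 4 := by
          apply pow_le_pow_right₀ (by linarith) (by norm_num)
    have h6 : (1 + d * |x|) ^ 3 * (2 * π * |x| * ‖kh d x‖) ≤ 2 * C0 := by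
      calc (1 + d * |x|) ^ 3 * (2 * π * |x| * ‖kh d x‖)
          ≤ (1 + d * |x|) ^ 3 * (‖𝓕 hst (-(2 * d * x))‖ + ‖𝓕 hst x‖) := by gcongr
        _ ≤ 2 * C0 := by rw [mul_add]; linarith
    have hpi : 3 < π := Real.pi_gt_three
    have h7 : ‖kh d x‖ * ((1 + |x|) * (1 + d * |x|) ^ 3) ≤ (1 + d * |x|) ^ 3 * (2 * π * |x| * ‖kh d x‖) := by
      have e1 : ‖kh d x‖ * ((1 + |x|) * (1 + d * |x|) ^ 3) = ((1 + d * |x|) ^ 3 * ‖kh d x‖) * (1 + |x|) := by ring
      have e2 : (1 + d * |x|) ^ 3 * (2 * π * |x| * ‖kh d x‖) = ((1 + d * |x|) ^ 3 * ‖kh d x‖) * (2 * π * |x|) := by ring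
      rw [e1, e2]
      gcongr
      nlinarith
    linarith

theorem kh_continuous {d : ℝ} (hd : 0 < d) : Continuous (kh d) := by
  let h : SchwartzMap ℝ ℂ := (kc_compact hd).toSchwartzMap (kc_contDiff d)
  let g : SchwartzMap ℝ ℂ := 𝓕 h
  have hg : (g : ℝ → ℂ) = kh d := by
    have : (g : ℝ → ℂ) = 𝓕 (h : ℝ → ℂ) := SchwartzMap.fourier_coe h
    rw [this]; rfl
  rw [← hg]
  exact g.continuous

theorem kh_integrable {d : ℝ} (hd : 0 < d) : Integrable (kh d) := by
  let h : SchwartzMap ℝ ℂ := (kc_compact hd).toSchwartzMap (kc_contDiff d)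
  let g : SchwartzMap ℝ ℂ := 𝓕 h
  have hg : (g : ℝ → ℂ) = kh d := by
    have : (g : ℝ → ℂ) = 𝓕 (h : ℝ → ℂ) := SchwartzMap.fourier_coe h
    rw [this]; rfl
  rw [← hg]
  exact g.integrable

theorem kc_inversion {d : ℝ} (hd : 0 < d) (v : ℝ) :
    kc d v = ∫ x : ℝ, Complex.exp (((2 * π * x * v : ℝ) : ℂ) * Complex.I) * kh d x := by
  have h := congrFun ((kc_continuous d).fourierInv_fourier_eq (kc_integrable hd) (kh_integrable hd)) v
  rw [← h, Real.fourierInv_eq']
  congr 1
  funext x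
  rw [smul_eq_mul]
  congr 2
  simp
  ring

/-- A bound for all the decay: the Fourier transform times any power is bounded, for fixed `d`. -/
theorem kh_rapid {d : ℝ} (hd : 0 < d) (k : ℕ) : ∃ C : ℝ, 0 < C ∧ ∀ x : ℝ, (1 + |x|) ^ k * ‖kh d x‖ ≤ C := by
  let h : SchwartzMap ℝ ℂ := (kc_compact hd).toSchwartzMap (kc_contDiff d)
  let g : SchwartzMap ℝ ℂ := 𝓕 h
  have hg : ∀ x, g x = kh d x := by
    intro x
    have : (g : ℝ → ℂ) = 𝓕 (h : ℝ → ℂ) := SchwartzMap.fourier_coe h
    rw [this]; rfl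
  have key := fun x => SchwartzMap.one_add_le_sup_seminorm_apply (𝕜 := ℝ) (m := (k, 0)) (k := k) (n := 0) (le_refl _) (le_refl _) g x
  refine ⟨2 ^ k * (Finset.Iic (k, 0)).sup (fun m => SchwartzMap.seminorm ℝ m.1 m.2) g + 1, ?_, ?_⟩
  · have := key 0
    have h0 : 0 ≤ (1 + ‖(0 : ℝ)‖) ^ k * ‖iteratedFDeriv ℝ 0 (g : ℝ → ℂ) 0‖ := by positivity
    simp only at this
    linarith
  · intro x
    have := key x
    rw [norm_iteratedFDeriv_zero, Real.norm_eq_abs, hg] at this
    simp only at this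
    linarith
/-- `log ((1 + x)/(1 + d x))` has derivative `(1 - d)/((1 + x)(1 + d x))`. -/
theorem log_deriv33 {d : ℝ} (hd : 0 < d) (x : ℝ) (hx : 0 ≤ x) :
    HasDerivAt (fun x : ℝ => Real.log (1 + x) - Real.log (1 + d * x)) ((1 - d) * (1 / ((1 + x) * (1 + d * x)))) x := by
  have h1 : HasDerivAt (fun x : ℝ => Real.log (1 + x)) (1 / (1 + x)) x := by
    have := ((hasDerivAt_id x).const_add 1).log (by simp only [id]; linarith)
    simpa using this
  have h2 : HasDerivAt (fun x : ℝ => Real.log (1 + d * x)) (d / (1 + d * x)) x := by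
    have := (((hasDerivAt_id x).const_mul d).const_add 1).log (by simp only [id]; positivity)
    simpa using this
  have h3 := h1.sub h2
  convert! h3 using 1
  have : 0 < 1 + x := by linarith
  have : 0 < 1 + d * x := by positivity
  field_simp
  ring

theorem log_tendsto33 {d : ℝ} (hd : 0 < d) :
    Filter.Tendsto (fun x : ℝ => Real.log (1 + x) - Real.log (1 + d * x)) Filter.atTop (nhds (Real.log (1 / d))) := by
  have h1 : Filter.Tendsto (fun x : ℝ => (1 + x) / (1 + d * x)) Filter.atTop (nhds (1 / d)) := by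
    have h2 : Filter.Tendsto (fun x : ℝ => (x⁻¹ + 1) / (x⁻¹ + d)) Filter.atTop (nhds ((0 + 1) / (0 + d))) := by
      apply Filter.Tendsto.div
      · exact tendsto_inv_atTop_zero.add_const 1
      · exact tendsto_inv_atTop_zero.add_const d
      · simpa using hd.ne'
    simp only [zero_add] at h2
    refine h2.congr' ?_
    filter_upwards [Filter.eventually_gt_atTop 0] with x hx
    field_simp
  have h3 := (Real.continuousAt_log (by positivity : (1 / d : ℝ) ≠ 0)).tendsto.comp h1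
  refine h3.congr' ?_
  filter_upwards [Filter.eventually_gt_atTop 0] with x hx
  simp only [Function.comp]
  rw [Real.log_div (by positivity) (by positivity)]

/-- The dominating function. -/
noncomputable def domf (d x : ℝ) : ℝ := 1 / ((1 + |x|) * (1 + d * |x|))

theorem domf_Ioi {d : ℝ} (hd : 0 < d) (hd2 : d ≤ 1 / 8) :
    IntegrableOn (domf d) (Set.Ioi 0) ∧ ∫ x in Set.Ioi 0, domf d x = Real.log (1 / d) / (1 - d) := by
  have hder : ∀ x ∈ Set.Ioi (0 : ℝ), HasDerivAt (fun x : ℝ => (Real.log (1 + x) - Real.log (1 + d * x)) / (1 - d))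
      (domf d x) x := by
    intro x hx
    have hx0 : 0 < x := hx
    have := (log_deriv33 hd x hx0.le).div_const (1 - d)
    convert! this using 1
    rw [domf, abs_of_pos hx0]
    have : (1 - d) ≠ 0 := by linarith
    field_simp
  have hcont : ContinuousWithinAt (fun x : ℝ => (Real.log (1 + x) - Real.log (1 + d * x)) / (1 - d)) (Set.Ici 0) 0 :=
    ((log_deriv33 hd 0 le_rfl).div_const (1 - d)).continuousAt.continuousWithinAt
  have hpos : ∀ x ∈ Set.Ioi (0 : ℝ), 0 ≤ domf d x := by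
    intro x _
    rw [domf]; positivity
  have hlim := (log_tendsto33 hd).div_const (1 - d)
  refine ⟨integrableOn_Ioi_deriv_of_nonneg hcont hder hpos hlim, ?_⟩
  rw [integral_Ioi_of_hasDerivAt_of_nonneg hcont hder hpos hlim]
  simp

theorem domf_neg (d x : ℝ) : domf d (-x) = domf d x := by
  rw [domf, domf, abs_neg]

theorem domf_integrable {d : ℝ} (hd : 0 < d) (hd2 : d ≤ 1 / 8) : Integrable (domf d) := by
  have h1 := (domf_Ioi hd hd2).1
  have h2 : IntegrableOn (domf d) (Set.Iio 0) := by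
    have h3 := h1.comp_neg
    simp only [Set.neg_Ioi, neg_zero] at h3
    refine h3.congr_fun ?_ measurableSet_Iio
    intro x _
    exact domf_neg d x
  have h3 : IntegrableOn (domf d) (Set.Iic 0) := (integrableOn_Iic_iff_integrableOn_Iio).2 h2
  have h4 := h3.union h1
  rw [Set.Iic_union_Ioi] at h4
  exact integrableOn_univ.1 h4

theorem domf_integral {d : ℝ} (hd : 0 < d) (hd2 : d ≤ 1 / 8) : ∫ x, domf d x ≤ 3 * Real.log (1 / d) := by
  have hI := domf_integrable hd hd2
  have h1 : ∫ x, domf d x = (∫ x in Set.Iic 0, domf d x) + ∫ x in Set.Ioi 0, domf d x := by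
    rw [← setIntegral_univ, ← Set.Iic_union_Ioi (a := (0 : ℝ)),
      setIntegral_union (Set.Iic_disjoint_Ioi le_rfl) measurableSet_Ioi hI.integrableOn hI.integrableOn]
  have h2 : ∫ x in Set.Iic 0, domf d x = ∫ x in Set.Ioi 0, domf d x := by
    have h := integral_comp_neg_Iic (0 : ℝ) (domf d)
    simp_rw [domf_neg] at h
    rw [neg_zero] at h
    exact h
  have h3 := (domf_Ioi hd hd2).2
  have hlog : 0 ≤ Real.log (1 / d) := by
    apply Real.log_nonneg
    rw [le_div_iff₀ hd]; linarith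
  rw [h1, h2, h3]
  rw [← two_mul, mul_div_assoc', div_le_iff₀ (by linarith)]
  nlinarith

/-- Weighted L1 norm of the Fourier transform of the cut: at most `C log (1/d)`. -/
theorem kh_L1 : ∃ C : ℝ, 0 < C ∧ ∀ d : ℝ, 0 < d → d ≤ 1 / 8 →
    Integrable (fun x => ‖kh d x‖ * (1 + d * |x|) ^ 2) ∧
    ∫ x, ‖kh d x‖ * (1 + d * |x|) ^ 2 ≤ C * Real.log (1 / d) := by
  obtain ⟨C, hC, hb⟩ := kh_bound
  refine ⟨3 * C, by positivity, ?_⟩
  intro d hd hd2
  have hI := domf_integrable hd hd2
  have hle : ∀ x, ‖kh d x‖ * (1 + d * |x|) ^ 2 ≤ C * domf d x := by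
    intro x
    have h1 := hb d hd hd2 x
    have hdx : 0 ≤ d * |x| := by positivity
    calc ‖kh d x‖ * (1 + d * |x|) ^ 2 ≤ C / ((1 + |x|) * (1 + d * |x|) ^ 3) * (1 + d * |x|) ^ 2 := by gcongr
      _ = C * domf d x := by
        rw [domf]
        have := abs_nonneg x
        field_simp
  have hint : Integrable (fun x => ‖kh d x‖ * (1 + d * |x|) ^ 2) := by
    refine (hI.const_mul C).mono' ?_ ?_
    · apply Continuous.aestronglyMeasurable
      exact (kh_continuous hd).norm.mul ((continuous_const.add (continuous_const.mul continuous_abs)).pow 2)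
    · refine Filter.Eventually.of_forall fun x => ?_
      rw [Real.norm_eq_abs, abs_of_nonneg (by positivity)]
      exact hle x
  refine ⟨hint, ?_⟩
  calc ∫ x, ‖kh d x‖ * (1 + d * |x|) ^ 2 ≤ ∫ x, C * domf d x := integral_mono hint (hI.const_mul C) hle
    _ = C * ∫ x, domf d x := integral_const_mul _ _
    _ ≤ C * (3 * Real.log (1 / d)) := by
      gcongr
      exact domf_integral hd hd2
    _ = 3 * C * Real.log (1 / d) := by ring

end Pool.Agent.Helper33.HG
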