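import Pool.Agent.Helper69.HG.Stm
import Pool.Agent.Helper33.HG.Kap3

/-!
# HALL GAPS: the cuts of block AFE (helper33)

`Fd d` is continuous, rapidly decreasing, `kF (Fd d) v = kapf d v` and `∫ ‖Fd d‖ ≤ C log (1/d)`.
-/

set_option autoImplicit false
open MeasureTheory Real FourierTransform
open scoped ContDiff
open Pool.Agent.Helper69.HG (kF IsCut)

namespace Pool.Agent.Helper33.HG

theorem kh_pow_integrable {d : ℝ} (hd : 0 < d) (k : ℕ) : Integrable (fun x => (1 + |x|) ^ k * ‖kh d x‖) := by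
  let h : SchwartzMap ℝ ℂ := (kc_compact hd).toSchwartzMap (kc_contDiff d)
  let g : SchwartzMap ℝ ℂ := 𝓕 h
  have hg : ∀ x, g x = kh d x := by
    intro x
    have : (g : ℝ → ℂ) = 𝓕 (h : ℝ → ℂ) := SchwartzMap.fourier_coe h
    rw [this]; rfl
  have h1 : Integrable (fun x : ℝ => ‖x‖ ^ k * ‖g x‖) := g.integrable_pow_mul volume k
  have h2 : Integrable (fun x : ℝ => ‖g x‖) := g.integrable.norm
  refine ((h1.add h2).const_mul (2 ^ k)).mono' ?_ ?_
  · apply Continuous.aestronglyMeasurable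
    exact ((continuous_const.add continuous_abs).pow k).mul (kh_continuous hd).norm
  · refine Filter.Eventually.of_forall fun x => ?_
    simp only [Pi.add_apply]
    rw [Real.norm_eq_abs, abs_of_nonneg (by positivity), hg, Real.norm_eq_abs]
    have h3 : (1 + |x|) ^ k ≤ 2 ^ k * (|x| ^ k + 1) := by
      rcases le_total |x| 1 with h | h
      · calc (1 + |x|) ^ k ≤ 2 ^ k := pow_le_pow_left₀ (by positivity) (by linarith) k
          _ ≤ 2 ^ k * (|x| ^ k + 1) := le_mul_of_one_le_right (by positivity) (by linarith [pow_nonneg (abs_nonneg x) k])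
      · calc (1 + |x|) ^ k ≤ (2 * |x|) ^ k := pow_le_pow_left₀ (by positivity) (by linarith) k
          _ = 2 ^ k * |x| ^ k := mul_pow _ _ _
          _ ≤ 2 ^ k * (|x| ^ k + 1) := by gcongr; linarith
    calc (1 + |x|) ^ k * ‖kh d x‖ ≤ 2 ^ k * (|x| ^ k + 1) * ‖kh d x‖ := by gcongr
      _ = 2 ^ k * (|x| ^ k * ‖kh d x‖ + ‖kh d x‖) := by ring

/-- The function `F` of the cut. -/
noncomputable def Fd (d ξ : ℝ) : ℂ := ((1 / (2 * π) : ℝ) : ℂ) * kh d (ξ / (2 * π))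

theorem Fd_continuous {d : ℝ} (hd : 0 < d) : Continuous (Fd d) :=
  continuous_const.mul ((kh_continuous hd).comp (continuous_id.div_const _))

theorem norm_Fd (d ξ : ℝ) : ‖Fd d ξ‖ = 1 / (2 * π) * ‖kh d (ξ / (2 * π))‖ := by
  rw [Fd, norm_mul, Complex.norm_real, Real.norm_eq_abs, abs_of_pos (by positivity)]

theorem kF_Fd {d : ℝ} (hd : 0 < d) (v : ℝ) : kF (Fd d) v = ((kapf d v : ℝ) : ℂ) := by
  have h := kc_inversion hd v
  rw [kc] at h
  rw [h, kF]
  set H : ℝ → ℂ := fun x => ((1 / (2 * π) : ℝ) : ℂ) * (Complex.exp (((2 * π * x * v : ℝ) : ℂ) * Complex.I) * kh d x) with hH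
  have e1 : (fun ξ : ℝ => Fd d ξ * Complex.exp (Complex.I * (ξ * v))) = fun ξ => H (ξ / (2 * π)) := by
    funext ξ
    simp only [hH, Fd]
    have : (((2 * π * (ξ / (2 * π)) * v : ℝ) : ℂ) * Complex.I) = Complex.I * (ξ * v) := by
      have e : 2 * π * (ξ / (2 * π)) = ξ := by field_simp
      rw [e]
      push_cast
      ring
    rw [this]
    ring
  rw [e1, Measure.integral_comp_div H (2 * π), abs_of_pos (by positivity)]
  simp only [hH]
  rw [integral_const_mul, Complex.real_smul, ← mul_assoc, ← Complex.ofReal_mul]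
  have e : 2 * π * (1 / (2 * π)) = 1 := by field_simp
  rw [e, Complex.ofReal_one, one_mul]

theorem Fd_dec {d : ℝ} (hd : 0 < d) (k : ℕ) : Integrable (fun ξ : ℝ => (1 + |ξ|) ^ k * ‖Fd d ξ‖) := by
  have h1 := ((kh_pow_integrable hd k).comp_div (R := 2 * π) (by positivity)).const_mul ((2 * π) ^ k * (1 / (2 * π)))
  refine h1.mono' ?_ ?_
  · apply Continuous.aestronglyMeasurable
    exact ((continuous_const.add continuous_abs).pow k).mul (Fd_continuous hd).norm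
  · refine Filter.Eventually.of_forall fun ξ => ?_
    rw [Real.norm_eq_abs, abs_of_nonneg (by positivity), norm_Fd]
    have hpi : 3 < π := Real.pi_gt_three
    have h2 : (1 + |ξ|) ^ k ≤ (2 * π) ^ k * (1 + |ξ / (2 * π)|) ^ k := by
      rw [← mul_pow]
      apply pow_le_pow_left₀ (by positivity)
      rw [abs_div, abs_of_pos (by positivity : (0:ℝ) < 2 * π), mul_add, mul_div_cancel₀ _ (by positivity)]
      linarith
    calc (1 + |ξ|) ^ k * (1 / (2 * π) * ‖kh d (ξ / (2 * π))‖)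
        ≤ ((2 * π) ^ k * (1 + |ξ / (2 * π)|) ^ k) * (1 / (2 * π) * ‖kh d (ξ / (2 * π))‖) := by gcongr
      _ = _ := by ring

theorem Fd_L1 {d : ℝ} : ∫ ξ, ‖Fd d ξ‖ = ∫ x, ‖kh d x‖ := by
  simp_rw [norm_Fd]
  rw [integral_const_mul, Measure.integral_comp_div (fun x => ‖kh d x‖) (2 * π), abs_of_pos (by positivity), smul_eq_mul,
    ← mul_assoc]
  have e : 1 / (2 * π) * (2 * π) = 1 := by field_simp
  rw [e, one_mul]

/-- `∫ ‖F‖ ≤ C log (1/d)`. -/
theorem Fd_L1_le : ∃ C : ℝ, 0 < C ∧ ∀ d : ℝ, 0 < d → d ≤ 1 / 8 → ∫ ξ, ‖Fd d ξ‖ ≤ C * Real.log (1 / d) := by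
  obtain ⟨C, hC, h⟩ := kh_L1
  refine ⟨C, hC, fun d hd hd2 => ?_⟩
  obtain ⟨h1, h2⟩ := h d hd hd2
  rw [Fd_L1]
  refine (integral_mono ?_ h1 fun x => ?_).trans h2
  · exact (kh_integrable hd).norm
  · have : 0 ≤ d * |x| := by positivity
    exact le_mul_of_one_le_right (norm_nonneg _) (one_le_pow₀ (by linarith))

theorem isCut_Fd {d : ℝ} (hd : 0 < d) : IsCut (1 / 2 - d) (1 / 2 + d) (Fd d) where
  cont := Fd_continuous hd
  dec := Fd_dec hd
  one := fun v h1 h2 => by rw [kF_Fd hd, kapf_eq_one hd (by linarith) h2, Complex.ofReal_one]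
  zero := fun v h => by rw [kF_Fd hd, kapf_zero_right hd h, Complex.ofReal_zero]
  bd := fun v => by
    rw [kF_Fd hd, Complex.norm_real, Real.norm_eq_abs, abs_of_nonneg (kapf_nonneg _ _)]
    exact kapf_le_one _ _

/-- The cut between `14/25` and `23/40`: a translate. -/
noncomputable def F2 (ξ : ℝ) : ℂ := Fd (3 / 400) ξ * Complex.exp (-(Complex.I * (ξ * (27 / 400 : ℝ))))

theorem norm_F2 (ξ : ℝ) : ‖F2 ξ‖ = ‖Fd (3 / 400) ξ‖ := by
  have : -(Complex.I * ((ξ : ℂ) * ((27 / 400 : ℝ) : ℂ))) = (((-(ξ * (27 / 400)) : ℝ)) : ℂ) * Complex.I := by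
    push_cast; ring
  rw [F2, norm_mul, this, Complex.norm_exp_ofReal_mul_I, mul_one]

theorem kF_F2 (v : ℝ) : kF F2 v = ((kapf (3 / 400) (v - 27 / 400) : ℝ) : ℂ) := by
  rw [← kF_Fd (by norm_num : (0:ℝ) < 3 / 400), kF, kF]
  congr 1
  funext ξ
  rw [F2, mul_assoc, ← Complex.exp_add]
  congr 2
  push_cast
  ring

theorem isCut_F2 : IsCut (14 / 25) (23 / 40) F2 where
  cont := (Fd_continuous (by norm_num)).mul (by fun_prop)
  dec := fun k => by
    simp_rw [norm_F2]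
    exact Fd_dec (by norm_num) k
  one := fun v h1 h2 => by
    rw [kF_F2, kapf_eq_one (by norm_num) (by linarith) (by linarith), Complex.ofReal_one]
  zero := fun v h => by
    rw [kF_F2, kapf_zero_right (by norm_num) (by linarith), Complex.ofReal_zero]
  bd := fun v => by
    rw [kF_F2, Complex.norm_real, Real.norm_eq_abs, abs_of_nonneg (kapf_nonneg _ _)]
    exact kapf_le_one _ _

theorem IsCut.mono_hi33 {lo hi hi' : ℝ} {F : ℝ → ℂ} (h : IsCut lo hi F) (hh : hi ≤ hi') : IsCut lo hi' F where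
  cont := h.cont
  dec := h.dec
  one := h.one
  zero := fun v hv => h.zero v (hh.trans hv)
  bd := h.bd

theorem small_log33 {C c : ℝ} (hC : 0 < C) (hc : 0 < c) : ∃ d : ℝ, 0 < d ∧ d ≤ 1 / 40 ∧ d ≤ c ∧ d * (C * Real.log (1 / d)) ^ 2 ≤ c := by
  set d : ℝ := min (1 / 40) (min c ((c / (16 * C ^ 2)) ^ 2)) with hd
  have hd0 : 0 < d := by rw [hd]; positivity
  have h1 : d ≤ 1 / 40 := min_le_left _ _
  have h2 : d ≤ c := (min_le_right _ _).trans (min_le_left _ _)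
  have h3 : d ≤ (c / (16 * C ^ 2)) ^ 2 := (min_le_right _ _).trans (min_le_right _ _)
  refine ⟨d, hd0, h1, h2, ?_⟩
  have hlog : Real.log (1 / d) ≤ 4 * (1 / d) ^ (1 / 4 : ℝ) := by
    have := Real.log_le_rpow_div (x := 1 / d) (by positivity) (by norm_num : (0:ℝ) < 1 / 4)
    linarith
  have hlog0 : 0 ≤ Real.log (1 / d) := Real.log_nonneg (by rw [le_div_iff₀ hd0]; linarith)
  have e1 : ((1 / d) ^ (1 / 4 : ℝ)) ^ 2 = (Real.sqrt d)⁻¹ := by
    rw [← Real.rpow_natCast, ← Real.rpow_mul (by positivity), Real.sqrt_eq_rpow, ← Real.rpow_neg hd0.le, one_div,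
      Real.inv_rpow hd0.le, ← Real.rpow_neg hd0.le]
    norm_num
  have hs : 0 < Real.sqrt d := Real.sqrt_pos.2 hd0
  have h4 : Real.sqrt d ≤ c / (16 * C ^ 2) := by
    rw [← Real.sqrt_sq (by positivity : (0:ℝ) ≤ c / (16 * C ^ 2))]
    exact Real.sqrt_le_sqrt h3
  calc d * (C * Real.log (1 / d)) ^ 2 ≤ d * (C * (4 * (1 / d) ^ (1 / 4 : ℝ))) ^ 2 := by gcongr
    _ = 16 * C ^ 2 * (d * ((1 / d) ^ (1 / 4 : ℝ)) ^ 2) := by ring
    _ = 16 * C ^ 2 * Real.sqrt d := by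
      rw [e1]
      congr 1
      nth_rewrite 1 [← Real.mul_self_sqrt hd0.le]
      field_simp
    _ ≤ 16 * C ^ 2 * (c / (16 * C ^ 2)) := by gcongr
    _ = c := by field_simp

/-- The cuts of block AFE. -/
theorem cut_exists : ∀ c : ℝ, 0 < c → ∃ d : ℝ, 0 < d ∧ d ≤ 1 / 40 ∧ d ≤ c ∧ IsCut (1 / 2 - d) (1 / 2 + d) (Fd d) ∧
    IsCut (14 / 25) (23 / 40) F2 ∧ d * (∫ ξ : ℝ, ‖Fd d ξ‖) ^ 2 ≤ c := by
  intro c hc
  obtain ⟨C, hC, h⟩ := Fd_L1_le
  obtain ⟨d, hd0, h1, h2, h3⟩ := small_log33 hC hc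
  refine ⟨d, hd0, h1, h2, isCut_Fd hd0, isCut_F2, ?_⟩
  have h4 := h d hd0 (by linarith)
  have h5 : 0 ≤ ∫ ξ : ℝ, ‖Fd d ξ‖ := integral_nonneg fun _ => norm_nonneg _
  calc d * (∫ ξ : ℝ, ‖Fd d ξ‖) ^ 2 ≤ d * (C * Real.log (1 / d)) ^ 2 := by gcongr
    _ ≤ c := h3

end Pool.Agent.Helper33.HG
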