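import Pool.Agent.Helper33.HG.N5a
import Pool.Agent.Helper49.HG.Cv
import Pool.Agent.Helper49.HG.NDefs
import Pool.Agent.Helper69.HG.Mol

/-!
# Hall gaps, NG, block N5: the diagonal of `φ conj(φ)`
-/

set_option autoImplicit false

namespace Pool.Agent.Helper33.HG

open Finset MeasureTheory Pool.Agent.Helper69.HG Pool.Agent.Helper49.HG

lemma rt33 {a : ℝ} (ha : 0 < a) : (a * a) ^ (-(1 / 2) : ℝ) = a⁻¹ := by
  rw [Real.mul_rpow ha.le ha.le, ← Real.rpow_add ha]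
  norm_num
  exact Real.rpow_neg_one a

lemma val33 {β : ℕ → ℝ} {qr : ℝ → ℝ} {s y₀ : ℝ} {h k h' k' j g p q : ℕ} (hh : 0 < h) (hk : 0 < k) (hh' : 0 < h')
    (hk' : 0 < k') (hj : 0 < j) (hg : 0 < g) (hp0 : 0 < p) (hq0 : 0 < q) (hp : h * k' = g * p) (hq : h' * k = g * q) :
    mc qr s y₀ (cA β) mA ((h, k), j * q) * mc qr s y₀ (cA β) mA ((h', k'), j * p) =
      β h * β k * (β h' * β k') / ((g * p * q : ℕ) : ℝ) *
        fq qr s (Real.log h + Real.log h' - Real.log g - y₀) j := by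
  have rh : (0 : ℝ) < h := by exact_mod_cast hh
  have rk : (0 : ℝ) < k := by exact_mod_cast hk
  have rh' : (0 : ℝ) < h' := by exact_mod_cast hh'
  have rk' : (0 : ℝ) < k' := by exact_mod_cast hk'
  have rj : (0 : ℝ) < j := by exact_mod_cast hj
  have rg : (0 : ℝ) < g := by exact_mod_cast hg
  have rp : (0 : ℝ) < p := by exact_mod_cast hp0
  have rq : (0 : ℝ) < q := by exact_mod_cast hq0
  have hpr : (h : ℝ) * k' = g * p := by exact_mod_cast hp
  have hqr : (h' : ℝ) * k = g * q := by exact_mod_cast hq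
  have lp : Real.log h + Real.log k' = Real.log g + Real.log p := by
    rw [← Real.log_mul rh.ne' rk'.ne', ← Real.log_mul rg.ne' rp.ne', hpr]
  have lq : Real.log h' + Real.log k = Real.log g + Real.log q := by
    rw [← Real.log_mul rh'.ne' rk.ne', ← Real.log_mul rg.ne' rq.ne', hqr]
  unfold mc cA mA fq
  simp only
  push_cast
  rw [Real.log_mul rj.ne' rq.ne', Real.log_mul rj.ne' rp.ne']
  have e1 : Real.log j + Real.log q + (Real.log h - Real.log k) - y₀ =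
      Real.log j + (Real.log h + Real.log h' - Real.log g - y₀) := by linarith
  have e2 : Real.log j + Real.log p + (Real.log h' - Real.log k') - y₀ =
      Real.log j + (Real.log h + Real.log h' - Real.log g - y₀) := by linarith
  rw [e1, e2]
  have e3 : ((h : ℝ) * k) ^ (-(1 / 2) : ℝ) * ((j : ℝ) * q) ^ (-(1 / 2) : ℝ) *
      (((h' : ℝ) * k') ^ (-(1 / 2) : ℝ) * ((j : ℝ) * p) ^ (-(1 / 2) : ℝ)) = (g * p * q * j : ℝ)⁻¹ := by
    rw [← rt33 (by positivity : (0 : ℝ) < g * p * q * j), ← Real.mul_rpow (by positivity) (by positivity),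
      ← Real.mul_rpow (by positivity) (by positivity), ← Real.mul_rpow (by positivity) (by positivity)]
    congr 1
    calc (h : ℝ) * k * (j * q) * (h' * k' * (j * p)) = (h * k') * (h' * k) * (p * q * j * j) := by ring
      _ = _ := by rw [hpr, hqr]; ring
  generalize qr ((Real.log j + (Real.log h + Real.log h' - Real.log g - y₀)) / s) = Q
  calc β h * β k * ((h : ℝ) * k) ^ (-(1 / 2) : ℝ) * ((j : ℝ) * q) ^ (-(1 / 2) : ℝ) * Q *
      (β h' * β k' * ((h' : ℝ) * k') ^ (-(1 / 2) : ℝ) * ((j : ℝ) * p) ^ (-(1 / 2) : ℝ) * Q) =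
      β h * β k * (β h' * β k') * (((h : ℝ) * k) ^ (-(1 / 2) : ℝ) * ((j : ℝ) * q) ^ (-(1 / 2) : ℝ) *
      (((h' : ℝ) * k') ^ (-(1 / 2) : ℝ) * ((j : ℝ) * p) ^ (-(1 / 2) : ℝ))) * Q ^ 2 := by ring
    _ = _ := by
      rw [e3]
      field_simp

lemma ml_eq33 {h k h' k' n m : ℕ} (hh : 0 < h) (hk : 0 < k) (hh' : 0 < h') (hk' : 0 < k') (hn : 0 < n) (hm : 0 < m) :
    ml mA ((h, k), n) = ml mA ((h', k'), m) ↔ n * (h * k') = m * (h' * k) := by
  have rh : (h : ℝ) ≠ 0 := by exact_mod_cast hh.ne'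
  have rk : (k : ℝ) ≠ 0 := by exact_mod_cast hk.ne'
  have rh' : (h' : ℝ) ≠ 0 := by exact_mod_cast hh'.ne'
  have rk' : (k' : ℝ) ≠ 0 := by exact_mod_cast hk'.ne'
  have rn : (n : ℝ) ≠ 0 := by exact_mod_cast hn.ne'
  have rm : (m : ℝ) ≠ 0 := by exact_mod_cast hm.ne'
  have e1 : Real.log ((n * (h * k') : ℕ) : ℝ) = Real.log n + (Real.log h + Real.log k') := by
    push_cast
    rw [Real.log_mul rn (mul_ne_zero rh rk'), Real.log_mul rh rk']
  have e2 : Real.log ((m * (h' * k) : ℕ) : ℝ) = Real.log m + (Real.log h' + Real.log k) := by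
    push_cast
    rw [Real.log_mul rm (mul_ne_zero rh' rk), Real.log_mul rh' rk]
  unfold ml mA
  simp only
  constructor
  · intro H
    have h1 : Real.log ((n * (h * k') : ℕ) : ℝ) = Real.log ((m * (h' * k) : ℕ) : ℝ) := by
      rw [e1, e2]; linarith
    have h2 := Real.log_injOn_pos (show (0 : ℝ) < ((n * (h * k') : ℕ) : ℝ) by positivity)
      (show (0 : ℝ) < ((m * (h' * k) : ℕ) : ℝ) by positivity) h1
    exact_mod_cast h2
  · intro H
    rw [H] at e1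
    linarith

open Classical in
lemma quad33 {X N : ℕ} {β : ℕ → ℝ} {qr : ℝ → ℝ} {B s y₀ : ℝ} (hB : ∀ y, B ≤ |y| → qr y = 0) (hs : 1 ≤ s)
    (hN : y₀ + 2 * Real.log X + s * B ≤ Real.log N) {h k h' k' : ℕ} (hh : h ∈ Icc 1 X) (hk : k ∈ Icc 1 X)
    (hh' : h' ∈ Icc 1 X) (hk' : k' ∈ Icc 1 X) :
    ∑ n ∈ Icc 1 N, ∑ m ∈ Icc 1 N, (if ml mA ((h, k), n) = ml mA ((h', k'), m) then
      mc qr s y₀ (cA β) mA ((h, k), n) * mc qr s y₀ (cA β) mA ((h', k'), m) else 0) =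
      β h * β k * (β h' * β k') / (Nat.lcm (h * k') (h' * k) : ℝ) *
        ∑ j ∈ Icc 1 N, fq qr s (Real.log h + Real.log h' - Real.log (Nat.gcd (h * k') (h' * k)) - y₀) j := by
  have hs0 : 0 < s := by linarith
  obtain ⟨h1, h2⟩ := Finset.mem_Icc.1 hh
  obtain ⟨k1, k2⟩ := Finset.mem_Icc.1 hk
  obtain ⟨h1', h2'⟩ := Finset.mem_Icc.1 hh'
  obtain ⟨k1', k2'⟩ := Finset.mem_Icc.1 hk'
  have hX1 : 1 ≤ X := h1.trans h2
  have hP : 0 < h * k' := Nat.mul_pos h1 k1'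
  have hQ : 0 < h' * k := Nat.mul_pos h1' k1
  obtain ⟨g, p, q, hg, hcop, hp, hq⟩ := Nat.exists_coprime' (Nat.gcd_pos_of_pos_left (h' * k) hP)
  have hp0 : 0 < p := Nat.pos_of_ne_zero fun h0 => by rw [h0, zero_mul] at hp; omega
  have hq0 : 0 < q := Nat.pos_of_ne_zero fun h0 => by rw [h0, zero_mul] at hq; omega
  have hgcd : Nat.gcd (h * k') (h' * k) = g := by
    rw [hp, hq, Nat.gcd_mul_right, Nat.coprime_iff_gcd_eq_one.1 hcop, one_mul]
  have hlcm : Nat.lcm (h * k') (h' * k) = g * p * q := by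
    have := Nat.gcd_mul_lcm (h * k') (h' * k)
    rw [hgcd, hp, hq] at this
    rw [hp, hq]
    apply Nat.eq_of_mul_eq_mul_left hg
    rw [this]
    ring
  rw [hgcd, hlcm, Finset.mul_sum]
  set c : ℝ := Real.log h + Real.log h' - Real.log g - y₀ with hc
  have lX : ∀ x : ℕ, 1 ≤ x → x ≤ X → 0 ≤ Real.log x ∧ Real.log x ≤ Real.log X := fun x hx hx' =>
    ⟨Real.log_nonneg (by exact_mod_cast hx), Real.log_le_log (by exact_mod_cast hx) (by exact_mod_cast hx')⟩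
  have rh : (h : ℝ) ≠ 0 := by exact_mod_cast (show h ≠ 0 by omega)
  have rk : (k : ℝ) ≠ 0 := by exact_mod_cast (show k ≠ 0 by omega)
  have rh' : (h' : ℝ) ≠ 0 := by exact_mod_cast (show h' ≠ 0 by omega)
  have rk' : (k' : ℝ) ≠ 0 := by exact_mod_cast (show k' ≠ 0 by omega)
  have rg : (g : ℝ) ≠ 0 := by exact_mod_cast hg.ne'
  have rp : (p : ℝ) ≠ 0 := by exact_mod_cast hp0.ne'
  have rq : (q : ℝ) ≠ 0 := by exact_mod_cast hq0.ne'
  have lp : Real.log h + Real.log k' = Real.log p + Real.log g := by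
    rw [← Real.log_mul rh rk', ← Real.log_mul rp rg]
    congr 1
    exact_mod_cast hp
  have lq : Real.log h' + Real.log k = Real.log q + Real.log g := by
    rw [← Real.log_mul rh' rk, ← Real.log_mul rq rg]
    congr 1
    exact_mod_cast hq
  -- terms outside vanish
  have hz : ∀ j ∈ Icc 1 N, β h * β k * (β h' * β k') / ((g * p * q : ℕ) : ℝ) * fq qr s c j ≠ 0 →
      j * q ≤ N ∧ j * p ≤ N := by
    intro j hj hne
    have hj1 := (Finset.mem_Icc.1 hj).1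
    have rj : (j : ℝ) ≠ 0 := by exact_mod_cast (show j ≠ 0 by omega)
    have hfq : fq qr s c j ≠ 0 := right_ne_zero_of_mul hne
    have hqr : qr ((Real.log j + c) / s) ≠ 0 := by
      intro h0
      apply hfq
      unfold fq
      rw [h0]
      ring
    have hlt : (Real.log j + c) / s < B := by
      by_contra hcon
      exact hqr (hB _ ((not_lt.1 hcon).trans (le_abs_self _)))
    rw [div_lt_iff₀ hs0] at hlt
    obtain ⟨a1, a2⟩ := lX h h1 h2
    obtain ⟨b1, b2⟩ := lX k k1 k2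
    obtain ⟨c1, c2⟩ := lX h' h1' h2'
    obtain ⟨d1, d2⟩ := lX k' k1' k2'
    have hlX : 0 ≤ Real.log X := a1.trans a2
    have hNlog : ∀ x : ℕ, 0 < x → Real.log x < Real.log N → x ≤ N := by
      intro x hx hlog
      by_contra hcon
      have hxN : (N : ℝ) < x := by exact_mod_cast (not_le.1 hcon)
      rcases Nat.eq_zero_or_pos N with h0 | h0
      · subst h0
        simp only [Nat.cast_zero, Real.log_zero] at hlog
        have : 0 ≤ Real.log x := Real.log_nonneg (by exact_mod_cast hx)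
        linarith
      · have := Real.log_lt_log (show (0 : ℝ) < N by exact_mod_cast h0) hxN
        linarith
    constructor
    · apply hNlog _ (Nat.mul_pos hj1 hq0)
      push_cast
      rw [Real.log_mul rj rq]
      linarith
    · apply hNlog _ (Nat.mul_pos hj1 hp0)
      push_cast
      rw [Real.log_mul rj rp]
      linarith
  rw [← Finset.sum_filter_of_ne hz]
  rw [← Finset.sum_product', ← Finset.sum_filter]
  symm
  apply Finset.sum_nbij (fun j => (j * q, j * p))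
  · intro j hj
    obtain ⟨hj1, hj2, hj3⟩ := Finset.mem_filter.1 hj
    have hj0 := (Finset.mem_Icc.1 hj1).1
    have q0 : 0 < j * q := Nat.mul_pos hj0 hq0
    have p0 : 0 < j * p := Nat.mul_pos hj0 hp0
    rw [Finset.mem_filter, Finset.mem_product, Finset.mem_Icc, Finset.mem_Icc]
    refine ⟨⟨⟨q0, hj2⟩, p0, hj3⟩, ?_⟩
    simp only
    rw [ml_eq33 h1 k1 h1' k1' q0 p0, hp, hq]
    ring
  · intro j hj j' hj' he
    simp only [Prod.mk.injEq] at he
    exact Nat.eq_of_mul_eq_mul_right hq0 he.1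
  · rintro ⟨n, m⟩ hx
    rw [Finset.mem_coe, Finset.mem_filter, Finset.mem_product, Finset.mem_Icc, Finset.mem_Icc] at hx
    obtain ⟨⟨⟨n1, n2⟩, m1, m2⟩, he⟩ := hx
    simp only at n1 n2 m1 m2 he
    rw [ml_eq33 h1 k1 h1' k1' n1 m1, hp, hq] at he
    have he2 : n * p = m * q := by
      apply Nat.eq_of_mul_eq_mul_right hg
      rw [mul_assoc, mul_assoc]
      exact he
    have hdvd : q ∣ n := by
      have h3 : q ∣ n * p := ⟨m, by rw [he2]; ring⟩
      exact (Nat.Coprime.dvd_of_dvd_mul_right hcop.symm h3)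
    obtain ⟨j, hj⟩ := hdvd
    have hj0 : 0 < j := Nat.pos_of_ne_zero fun h0 => by rw [h0, mul_zero] at hj; omega
    have hm : m = j * p := by
      apply Nat.eq_of_mul_eq_mul_right hq0
      rw [← he2, hj]
      ring
    have hn : n = j * q := by rw [hj]; ring
    refine ⟨j, ?_, ?_⟩
    · rw [Finset.mem_coe, Finset.mem_filter, Finset.mem_Icc]
      refine ⟨⟨hj0, ?_⟩, ?_, ?_⟩
      · calc j = j * 1 := (mul_one j).symm
          _ ≤ j * q := Nat.mul_le_mul_left _ hq0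
          _ ≤ N := by rw [← hn]; exact n2
      · rw [← hn]; exact n2
      · rw [← hm]; exact m2
    · simp only [hn, hm]
  · intro j hj
    obtain ⟨hj1, hj2, hj3⟩ := Finset.mem_filter.1 hj
    have hj0 := (Finset.mem_Icc.1 hj1).1
    exact (val33 h1 k1 h1' k1' hj0 hg hp0 hq0 (by rw [hp]; ring) (by rw [hq]; ring)).symm

/-- sums over the convolution -/
lemma rconv33 {X : ℕ} {β : ℕ → ℝ} (hβ : ∀ n, β n ≠ 0 → n ≤ X) (G : ℕ → ℝ) :
    ∑ h ∈ Finset.Icc 1 (X * X), conv β β h * G h =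
      ∑ m ∈ Finset.Icc 1 X, ∑ n ∈ Finset.Icc 1 X, β m * β n * G (m * n) := by
  classical
  set P := ((Finset.Icc 1 X) ×ˢ (Finset.Icc 1 X)) with hP
  have h1 : ∑ m ∈ Finset.Icc 1 X, ∑ n ∈ Finset.Icc 1 X, β m * β n * G (m * n) =
      ∑ x ∈ P, β x.1 * β x.2 * G (x.1 * x.2) := by rw [hP, Finset.sum_product]
  rw [h1, ← Finset.sum_fiberwise_of_maps_to (s := P) (t := Finset.Icc 1 (X * X)) (g := fun x => x.1 * x.2)
    (fun x hx => by
      rw [hP, Finset.mem_product, Finset.mem_Icc, Finset.mem_Icc] at hx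
      rw [Finset.mem_Icc]
      exact ⟨Nat.mul_pos hx.1.1 hx.2.1, Nat.mul_le_mul hx.1.2 hx.2.2⟩)]
  refine Finset.sum_congr rfl fun h hh => ?_
  rw [Finset.mem_Icc] at hh
  have hh0 : h ≠ 0 := by omega
  have h2 : ∑ x ∈ P with x.1 * x.2 = h, β x.1 * β x.2 * G (x.1 * x.2) =
      ∑ x ∈ P with x.1 * x.2 = h, β x.1 * β x.2 * G h := by
    refine Finset.sum_congr rfl fun x hx => ?_
    rw [(Finset.mem_filter.1 hx).2]
  rw [h2, ← Finset.sum_mul]
  congr 1
  unfold conv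
  rw [← Nat.sum_divisorsAntidiagonal (fun i j => β i * β j)]
  symm
  apply Finset.sum_subset_zero_on_sdiff
  · intro x hx
    rw [Finset.mem_filter, hP, Finset.mem_product, Finset.mem_Icc, Finset.mem_Icc] at hx
    rw [Nat.mem_divisorsAntidiagonal]
    exact ⟨hx.2, hh0⟩
  · intro x hx
    rw [Finset.mem_sdiff, Nat.mem_divisorsAntidiagonal, Finset.mem_filter, hP, Finset.mem_product, Finset.mem_Icc,
      Finset.mem_Icc] at hx
    by_contra hcon
    apply hx.2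
    have h3 : β x.1 ≠ 0 := left_ne_zero_of_mul hcon
    have h4 : β x.2 ≠ 0 := right_ne_zero_of_mul hcon
    have h5 : x.1 ≠ 0 := fun h0 => hh0 (by rw [← hx.1.1, h0, zero_mul])
    have h6 : x.2 ≠ 0 := fun h0 => hh0 (by rw [← hx.1.1, h0, mul_zero])
    exact ⟨⟨⟨by omega, hβ _ h3⟩, by omega, hβ _ h4⟩, hx.1.1⟩
  · intro x _; rfl

/-- `Ql` of `β * β` at `1/2` -/
lemma Ql33 {X : ℕ} {β : ℕ → ℝ} (hβ : ∀ n, β n ≠ 0 → n ≤ X) :
    Ql (X * X) (conv β β) (1 / 2) = ∑ x ∈ Icc 1 X ×ˢ Icc 1 X, ∑ x' ∈ Icc 1 X ×ˢ Icc 1 X,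
      β x.1 * β x.2 * (β x'.1 * β x'.2) / (Nat.lcm (x.1 * x'.2) (x'.1 * x.2) : ℝ) := by
  have e0 : ∀ u v : ℕ, (Nat.lcm u v : ℝ) ^ (-2 * (1 / 2) : ℝ) = (Nat.lcm u v : ℝ)⁻¹ := by
    intro u v
    rw [show (-2 * (1 / 2) : ℝ) = -1 by norm_num, Real.rpow_neg_one]
  unfold Ql
  simp only [e0]
  have e1 : ∀ h k : ℕ, conv β β h * conv β β k * (Nat.lcm h k : ℝ)⁻¹ =
      conv β β h * (conv β β k * (Nat.lcm h k : ℝ)⁻¹) := fun h k => by ring
  simp only [e1, ← Finset.mul_sum]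
  rw [rconv33 hβ (fun h => ∑ k ∈ Icc 1 (X * X), conv β β k * (Nat.lcm h k : ℝ)⁻¹)]
  simp only [rconv33 hβ]
  rw [Finset.sum_product]
  refine Finset.sum_congr rfl fun h _ => ?_
  simp only [Finset.sum_product]
  calc ∑ n ∈ Icc 1 X, β h * β n * ∑ m' ∈ Icc 1 X, ∑ n' ∈ Icc 1 X, β m' * β n' * (Nat.lcm (h * n) (m' * n') : ℝ)⁻¹ =
      ∑ n ∈ Icc 1 X, ∑ m' ∈ Icc 1 X, ∑ n' ∈ Icc 1 X, β h * β n' * (β m' * β n) / (Nat.lcm (h * n) (m' * n') : ℝ) := by
        refine Finset.sum_congr rfl fun n _ => ?_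
        rw [Finset.mul_sum]
        refine Finset.sum_congr rfl fun m' _ => ?_
        rw [Finset.mul_sum]
        refine Finset.sum_congr rfl fun n' _ => ?_
        rw [div_eq_mul_inv]
        ring
    _ = ∑ n ∈ Icc 1 X, ∑ n' ∈ Icc 1 X, ∑ m' ∈ Icc 1 X, β h * β n' * (β m' * β n) / (Nat.lcm (h * n) (m' * n') : ℝ) :=
        Finset.sum_congr rfl fun n _ => Finset.sum_comm
    _ = ∑ n' ∈ Icc 1 X, ∑ n ∈ Icc 1 X, ∑ m' ∈ Icc 1 X, β h * β n' * (β m' * β n) / (Nat.lcm (h * n) (m' * n') : ℝ) :=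
        Finset.sum_comm
    _ = _ := Finset.sum_congr rfl fun n' _ => Finset.sum_comm

open Classical in
/-- the diagonal of `φ conj(φ)` -/
theorem n5 {X N : ℕ} {β : ℕ → ℝ} {qr : ℝ → ℝ} {B D s y₀ : ℝ} (hβ : ∀ n, |β n| ≤ 1) (hq : ContDiff ℝ 1 qr)
    (hq1 : ∀ y, |qr y| ≤ 1) (hD : ∀ y, |deriv qr y| ≤ D) (hB : ∀ y, B ≤ |y| → qr y = 0) (hs : 1 ≤ s) (hX : 1 ≤ X)
    (hN : y₀ + 2 * Real.log X + s * B ≤ Real.log N) (hy : 2 * Real.log X + s * B ≤ y₀)
    (hβX : ∀ n, β n ≠ 0 → n ≤ X) :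
    ∑ x ∈ (Icc 1 X ×ˢ Icc 1 X) ×ˢ Icc 1 N, ∑ x' ∈ (Icc 1 X ×ˢ Icc 1 X) ×ˢ Icc 1 N,
      (if ml mA x = ml mA x' then mc qr s y₀ (cA β) mA x * mc qr s y₀ (cA β) mA x' else 0) ≤
      s * (∫ y, qr y ^ 2) * Ql (X * X) (conv β β) (1 / 2) + 16 * (1 + 2 * D) * (X : ℝ) ^ 6 * Real.exp (s * B - y₀) := by
  have hs0 : 0 < s := by linarith
  have hD0 : 0 ≤ D := (abs_nonneg _).trans (hD 0)
  have hX0 : (0 : ℝ) < X := by exact_mod_cast hX
  set J := Icc 1 X ×ˢ Icc 1 X with hJ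
  set I : ℝ := ∫ y, qr y ^ 2 with hI
  have e1 : ∑ x ∈ J ×ˢ Icc 1 N, ∑ x' ∈ J ×ˢ Icc 1 N,
      (if ml mA x = ml mA x' then mc qr s y₀ (cA β) mA x * mc qr s y₀ (cA β) mA x' else 0) =
      ∑ i ∈ J, ∑ i' ∈ J, ∑ n ∈ Icc 1 N, ∑ m ∈ Icc 1 N,
      (if ml mA (i, n) = ml mA (i', m) then mc qr s y₀ (cA β) mA (i, n) * mc qr s y₀ (cA β) mA (i', m) else 0) := by
    rw [Finset.sum_product]
    refine Finset.sum_congr rfl fun i _ => ?_
    rw [Finset.sum_comm' (t' := J ×ˢ Icc 1 N) (s' := fun _ => Icc 1 N) (by tauto), Finset.sum_product]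
    refine Finset.sum_congr rfl fun i' _ => ?_
    exact Finset.sum_comm
  have hterm : ∀ i ∈ J, ∀ i' ∈ J, ∑ n ∈ Icc 1 N, ∑ m ∈ Icc 1 N,
      (if ml mA (i, n) = ml mA (i', m) then mc qr s y₀ (cA β) mA (i, n) * mc qr s y₀ (cA β) mA (i', m) else 0) ≤
      s * I * (β i.1 * β i.2 * (β i'.1 * β i'.2) / (Nat.lcm (i.1 * i'.2) (i'.1 * i.2) : ℝ)) +
        8 * (1 + 2 * D) * ((X : ℝ) ^ 2 * Real.exp (s * B - y₀)) := by
    rintro ⟨h, k⟩ hi ⟨h', k'⟩ hi'
    obtain ⟨hh, hk⟩ := Finset.mem_product.1 hi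
    obtain ⟨hh', hk'⟩ := Finset.mem_product.1 hi'
    rw [quad33 hB hs hN hh hk hh' hk']
    obtain ⟨h1, h2⟩ := Finset.mem_Icc.1 hh
    obtain ⟨k1, k2⟩ := Finset.mem_Icc.1 hk
    obtain ⟨h1', h2'⟩ := Finset.mem_Icc.1 hh'
    obtain ⟨k1', k2'⟩ := Finset.mem_Icc.1 hk'
    have hP : 0 < h * k' := Nat.mul_pos h1 k1'
    have hQ : 0 < h' * k := Nat.mul_pos h1' k1
    set g := Nat.gcd (h * k') (h' * k) with hg
    have hg0 : 0 < g := Nat.gcd_pos_of_pos_left _ hP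
    have lX : ∀ x : ℕ, 1 ≤ x → x ≤ X → 0 ≤ Real.log x ∧ Real.log x ≤ Real.log X := fun x hx hx' =>
      ⟨Real.log_nonneg (by exact_mod_cast hx), Real.log_le_log (by exact_mod_cast hx) (by exact_mod_cast hx')⟩
    obtain ⟨a1, a2⟩ := lX h h1 h2
    obtain ⟨b1, b2⟩ := lX k k1 k2
    obtain ⟨c1, c2⟩ := lX h' h1' h2'
    obtain ⟨d1, d2⟩ := lX k' k1' k2'
    have hlg : 0 ≤ Real.log g := Real.log_nonneg (by exact_mod_cast hg0)
    have hlg2 : Real.log g ≤ Real.log h' + Real.log k := by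
      have r1 : (h' : ℝ) ≠ 0 := by exact_mod_cast (show h' ≠ 0 by omega)
      have r2 : (k : ℝ) ≠ 0 := by exact_mod_cast (show k ≠ 0 by omega)
      rw [← Real.log_mul r1 r2]
      apply Real.log_le_log (by exact_mod_cast hg0)
      exact_mod_cast Nat.le_of_dvd hQ (Nat.gcd_dvd_right _ _)
    set c : ℝ := Real.log h + Real.log h' - Real.log g - y₀ with hc
    have hj := jsum (N := N) (c := c) hq hq1 hD hB hs (by linarith) (by linarith)
    rw [← hI] at hj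
    set S : ℝ := ∑ j ∈ Icc 1 N, fq qr s c j with hS
    have hexp : Real.exp (s * B + c) ≤ (X : ℝ) ^ 2 * Real.exp (s * B - y₀) := by
      have : (X : ℝ) ^ 2 = Real.exp (2 * Real.log X) := by
        rw [two_mul, Real.exp_add, Real.exp_log hX0]
        ring
      rw [this, ← Real.exp_add]
      apply Real.exp_le_exp.2
      linarith
    have hl1 : (1 : ℝ) ≤ (Nat.lcm (h * k') (h' * k) : ℝ) := by
      exact_mod_cast Nat.lcm_pos hP hQ
    have hcoef : |β h * β k * (β h' * β k') / (Nat.lcm (h * k') (h' * k) : ℝ)| ≤ 1 := by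
      rw [abs_div, abs_of_pos (by linarith : (0 : ℝ) < (Nat.lcm (h * k') (h' * k) : ℝ)), div_le_iff₀ (by linarith)]
      rw [abs_mul, abs_mul, abs_mul, one_mul]
      refine le_trans ?_ hl1
      calc |β h| * |β k| * (|β h'| * |β k'|) ≤ 1 * 1 * (1 * 1) := by
            gcongr
            · exact hβ _
            · exact hβ _
            · exact hβ _
            · exact hβ _
        _ = 1 := by ring
    set b : ℝ := β h * β k * (β h' * β k') / (Nat.lcm (h * k') (h' * k) : ℝ) with hb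
    have h3 : b * (S - s * I) ≤ 8 * (1 + 2 * D) * ((X : ℝ) ^ 2 * Real.exp (s * B - y₀)) := by
      calc b * (S - s * I) ≤ |b * (S - s * I)| := le_abs_self _
        _ = |b| * |S - s * I| := abs_mul _ _
        _ ≤ 1 * (8 * (1 + 2 * D) * Real.exp (s * B + c)) := by
            apply mul_le_mul hcoef hj (abs_nonneg _) zero_le_one
        _ ≤ _ := by
            rw [one_mul]
            apply mul_le_mul_of_nonneg_left hexp (by positivity)
    have h4 : b * S = s * I * b + b * (S - s * I) := by ring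
    rw [h4]
    linarith
  rw [e1]
  refine (Finset.sum_le_sum fun i hi => Finset.sum_le_sum fun i' hi' => hterm i hi i' hi').trans ?_
  simp only [Finset.sum_add_distrib, ← Finset.mul_sum]
  rw [← Ql33 hβX]
  simp only [Finset.sum_const, nsmul_eq_mul]
  have hcard : ((J.card : ℕ) : ℝ) = (X : ℝ) ^ 2 := by
    rw [hJ, Finset.card_product, Nat.card_Icc, Nat.add_sub_cancel]
    push_cast
    ring
  rw [hcard]
  have hE : 0 < Real.exp (s * B - y₀) := Real.exp_pos _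
  have : (X : ℝ) ^ 2 * ((X : ℝ) ^ 2 * (8 * (1 + 2 * D) * ((X : ℝ) ^ 2 * Real.exp (s * B - y₀)))) ≤
      16 * (1 + 2 * D) * (X : ℝ) ^ 6 * Real.exp (s * B - y₀) := by
    have h5 : 0 ≤ (1 + 2 * D) * (X : ℝ) ^ 6 * Real.exp (s * B - y₀) := by positivity
    calc (X : ℝ) ^ 2 * ((X : ℝ) ^ 2 * (8 * (1 + 2 * D) * ((X : ℝ) ^ 2 * Real.exp (s * B - y₀)))) =
        8 * ((1 + 2 * D) * (X : ℝ) ^ 6 * Real.exp (s * B - y₀)) := by ring
      _ ≤ 16 * ((1 + 2 * D) * (X : ℝ) ^ 6 * Real.exp (s * B - y₀)) := by linarith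
      _ = _ := by ring
  linarith

end Pool.Agent.Helper33.HG
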