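import Mathlib

/-!
# Hall gaps, NG, block N5: the sum over `j` of `(1/j) q²((log j + c)/s)`
-/

set_option autoImplicit false

namespace Pool.Agent.Helper33.HG

open Finset MeasureTheory

noncomputable section

/-- the primitive -/
def PR (qr : ℝ → ℝ) (B s c x : ℝ) : ℝ := s * ∫ u in (-B)..((Real.log x + c) / s), qr u ^ 2

/-- the summand -/
def fq (qr : ℝ → ℝ) (s c x : ℝ) : ℝ := 1 / x * qr ((Real.log x + c) / s) ^ 2

variable {qr : ℝ → ℝ} {B D s c : ℝ}

lemma PR_deriv (hq : ContDiff ℝ 1 qr) (hs : 0 < s) {x : ℝ} (hx : 0 < x) :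
    HasDerivAt (PR qr B s c) (fq qr s c x) x := by
  have hc : Continuous fun u => qr u ^ 2 := hq.continuous.pow 2
  have h1 : HasDerivAt (fun v : ℝ => ∫ u in (-B)..v, qr u ^ 2) (qr ((Real.log x + c) / s) ^ 2) ((Real.log x + c) / s) :=
    intervalIntegral.integral_hasDerivAt_right (hc.intervalIntegrable _ _) (hc.stronglyMeasurableAtFilter _ _)
      hc.continuousAt
  have h2 : HasDerivAt (fun x : ℝ => (Real.log x + c) / s) (x⁻¹ / s) x :=
    ((Real.hasDerivAt_log hx.ne').add_const c).div_const s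
  have h3 := HasDerivAt.comp x h1 h2
  have h4 := h3.const_mul s
  unfold PR fq
  refine h4.congr_deriv ?_
  field_simp

lemma fq_deriv (hq : ContDiff ℝ 1 qr) {x : ℝ} (hx : 0 < x) :
    HasDerivAt (fq qr s c) (-(x ^ 2)⁻¹ * qr ((Real.log x + c) / s) ^ 2 +
      x⁻¹ * (2 * qr ((Real.log x + c) / s) * (deriv qr ((Real.log x + c) / s) * (x⁻¹ / s)))) x := by
  have h2 : HasDerivAt (fun x : ℝ => (Real.log x + c) / s) (x⁻¹ / s) x :=
    ((Real.hasDerivAt_log hx.ne').add_const c).div_const s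
  have hd : HasDerivAt qr (deriv qr ((Real.log x + c) / s)) ((Real.log x + c) / s) :=
    (hq.differentiable one_ne_zero _).hasDerivAt
  have h3 : HasDerivAt (fun x : ℝ => qr ((Real.log x + c) / s))
      (deriv qr ((Real.log x + c) / s) * (x⁻¹ / s)) x := hd.comp x h2
  have h4 := h3.pow 2
  have h5 := (hasDerivAt_inv hx.ne').mul h4
  have e : fq qr s c = fun x : ℝ => x⁻¹ * qr ((Real.log x + c) / s) ^ 2 := by
    funext x; unfold fq; rw [one_div]
  rw [e]
  refine h5.congr_deriv ?_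
  simp

lemma fq_deriv_le (hq1 : ∀ y, |qr y| ≤ 1) (hD : ∀ y, |deriv qr y| ≤ D) (hs : 1 ≤ s) {x : ℝ} (hx : 0 < x) :
    |-(x ^ 2)⁻¹ * qr ((Real.log x + c) / s) ^ 2 +
      x⁻¹ * (2 * qr ((Real.log x + c) / s) * (deriv qr ((Real.log x + c) / s) * (x⁻¹ / s)))| ≤ (1 + 2 * D) / x ^ 2 := by
  have hs0 : 0 < s := by linarith
  generalize hv : (Real.log x + c) / s = v
  have h1 := hq1 v
  have h2 := hD v
  have hD0 : 0 ≤ D := (abs_nonneg _).trans h2
  have e : -(x ^ 2)⁻¹ * qr v ^ 2 + x⁻¹ * (2 * qr v * (deriv qr v * (x⁻¹ / s))) =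
      (-(qr v ^ 2) + 2 * qr v * deriv qr v / s) / x ^ 2 := by
    field_simp
  rw [e, abs_div, abs_of_pos (show 0 < x ^ 2 by positivity)]
  apply div_le_div_of_nonneg_right _ (by positivity)
  refine (abs_add_le _ _).trans (add_le_add ?_ ?_)
  · rw [abs_neg, abs_pow]
    exact pow_le_one₀ (abs_nonneg _) h1
  · rw [abs_div, abs_of_pos hs0, abs_mul, abs_mul, abs_two]
    rw [div_le_iff₀ hs0]
    calc 2 * |qr v| * |deriv qr v| ≤ 2 * 1 * D := by gcongr
      _ = 2 * D * 1 := by ring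
      _ ≤ 2 * D * s := by gcongr

lemma step_le (hq : ContDiff ℝ 1 qr) (hq1 : ∀ y, |qr y| ≤ 1) (hD : ∀ y, |deriv qr y| ≤ D) (hs : 1 ≤ s) {j : ℝ}
    (hj : 1 ≤ j) : |fq qr s c (j + 1) - (PR qr B s c (j + 1) - PR qr B s c j)| ≤ 4 * (1 + 2 * D) / (j + 1) ^ 2 := by
  have hs0 : 0 < s := by linarith
  have hD0 : 0 ≤ D := (abs_nonneg _).trans (hD 0)
  obtain ⟨ξ, hξ, h1⟩ := exists_hasDerivAt_eq_slope (PR qr B s c) (fq qr s c) (show j < j + 1 by linarith)
    (fun x hx => (PR_deriv hq hs0 (by linarith [hx.1])).continuousAt.continuousWithinAt)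
    (fun x hx => PR_deriv hq hs0 (by linarith [hx.1]))
  have h2 : PR qr B s c (j + 1) - PR qr B s c j = fq qr s c ξ := by
    rw [h1]
    have : j + 1 - j = 1 := by ring
    rw [this, div_one]
  have hξ0 : 0 < ξ := by linarith [hξ.1]
  obtain ⟨η, hη, h3⟩ := exists_hasDerivAt_eq_slope (fq qr s c) _ hξ.2
    (fun x hx => (fq_deriv (s := s) (c := c) hq (show 0 < x by linarith [hx.1])).continuousAt.continuousWithinAt)
    (fun x hx => fq_deriv (s := s) (c := c) hq (show 0 < x by linarith [hx.1]))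
  have hη0 : 0 < η := hξ0.trans hη.1
  have h4 := fq_deriv_le (c := c) hq1 hD hs hη0
  rw [h3] at h4
  have h5 : 0 < j + 1 - ξ := by linarith [hξ.2]
  rw [abs_div, abs_of_pos h5, div_le_iff₀ h5] at h4
  rw [h2]
  refine h4.trans ?_
  have hη1 : (j + 1) / 2 ≤ η := by linarith [hη.1, hξ.1]
  calc (1 + 2 * D) / η ^ 2 * (j + 1 - ξ) ≤ (1 + 2 * D) / ((j + 1) / 2) ^ 2 * 1 := by
        apply mul_le_mul _ (by linarith [hξ.1]) h5.le (by positivity)
        apply div_le_div_of_nonneg_left (by positivity) (by positivity)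
        exact pow_le_pow_left₀ (by positivity) hη1 2
    _ = 4 * (1 + 2 * D) / (j + 1) ^ 2 := by
        field_simp
        ring

lemma z1 (hB : ∀ y, B ≤ |y| → qr y = 0) {v : ℝ} (hv : v ≤ -B) : qr v = 0 :=
  hB v ((by linarith : B ≤ -v).trans (neg_le_abs v))

lemma z2 (hB : ∀ y, B ≤ |y| → qr y = 0) {v : ℝ} (hv : v ≤ -B) : ∫ u in (-B)..v, qr u ^ 2 = 0 := by
  rw [intervalIntegral.integral_congr (g := fun _ => (0 : ℝ))]
  · simp
  · intro u hu
    rw [Set.uIcc_of_ge hv] at hu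
    simp only
    rw [z1 hB hu.2]
    norm_num

lemma z3 (hB : ∀ y, B ≤ |y| → qr y = 0) {v : ℝ} (hv : B ≤ v) : ∫ u in (-B)..v, qr u ^ 2 = ∫ u, qr u ^ 2 := by
  apply intervalIntegral.integral_eq_integral_of_support_subset
  intro u hu
  rw [Function.mem_support] at hu
  have h1 : |u| < B := by
    by_contra hcon
    apply hu
    rw [hB u (not_lt.1 hcon)]
    norm_num
  rw [abs_lt] at h1
  exact ⟨h1.1, by linarith [h1.2]⟩

lemma core_zero (hB : ∀ y, B ≤ |y| → qr y = 0) (hs : 0 < s) {a : ℝ} (ha : 1 ≤ a) (hac : Real.log a + c ≤ -(s * B))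
    {N : ℕ} (hN : (N : ℝ) ≤ a) : (Real.log N + c) / s ≤ -B := by
  rw [div_le_iff₀ hs]
  rcases Nat.eq_zero_or_pos N with h | h
  · subst h
    simp only [Nat.cast_zero, Real.log_zero]
    have := Real.log_nonneg ha
    nlinarith
  · have : Real.log N ≤ Real.log a := Real.log_le_log (by exact_mod_cast h) hN
    nlinarith

lemma core (hq : ContDiff ℝ 1 qr) (hq1 : ∀ y, |qr y| ≤ 1) (hD : ∀ y, |deriv qr y| ≤ D) (hB : ∀ y, B ≤ |y| → qr y = 0)
    (hs : 1 ≤ s) {a : ℝ} (ha : 1 ≤ a) (hac : Real.log a + c ≤ -(s * B)) (N : ℕ) :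
    ((N : ℝ) ≤ a → ∑ j ∈ Icc 1 N, fq qr s c j = 0 ∧ PR qr B s c N = 0) ∧
    (a < N → |∑ j ∈ Icc 1 N, fq qr s c j - PR qr B s c N| ≤ 4 * (1 + 2 * D) * (2 / a - 1 / N)) := by
  have hs0 : 0 < s := by linarith
  have ha0 : 0 < a := by linarith
  have hD0 : 0 ≤ D := (abs_nonneg _).trans (hD 0)
  have hz : ∀ M : ℕ, (M : ℝ) ≤ a → ∑ j ∈ Icc 1 M, fq qr s c j = 0 ∧ PR qr B s c M = 0 := by
    intro M hM
    constructor
    · refine Finset.sum_eq_zero fun j hj => ?_
      have hj' : (j : ℝ) ≤ a := le_trans (by exact_mod_cast (Finset.mem_Icc.1 hj).2) hM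
      unfold fq
      rw [z1 hB (core_zero hB hs0 ha hac hj')]
      ring
    · unfold PR
      rw [z2 hB (core_zero hB hs0 ha hac hM), mul_zero]
  refine ⟨hz N, ?_⟩
  induction N with
  | zero =>
    intro h
    simp only [Nat.cast_zero] at h
    linarith
  | succ N ih =>
    intro h
    have hN1 : 1 ≤ N := by
      by_contra hcon
      have : N = 0 := by omega
      subst this
      simp only [zero_add, Nat.cast_one] at h
      linarith
    have hN1' : (1 : ℝ) ≤ N := by exact_mod_cast hN1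
    have hst := step_le (B := B) (c := c) hq hq1 hD hs hN1'
    rw [Finset.sum_Icc_succ_top (by omega)]
    push_cast at h ⊢
    have e : ∑ j ∈ Icc 1 N, fq qr s c j + fq qr s c (N + 1) - PR qr B s c (N + 1) =
        (∑ j ∈ Icc 1 N, fq qr s c j - PR qr B s c N) +
        (fq qr s c (N + 1) - (PR qr B s c (N + 1) - PR qr B s c N)) := by ring
    rw [e]
    have hK : 0 ≤ 4 * (1 + 2 * D) := by positivity
    rcases le_or_gt (N : ℝ) a with hNa | hNa
    · obtain ⟨h1, h2⟩ := hz N hNa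
      rw [h1, h2, sub_zero, zero_add]
      rw [h2] at hst
      refine hst.trans ?_
      rw [div_eq_mul_one_div]
      apply mul_le_mul_of_nonneg_left _ hK
      have h3 : 2 / ((N : ℝ) + 1) ≤ 2 / a := div_le_div_of_nonneg_left (by norm_num) ha0 h.le
      have h4 : 1 / ((N : ℝ) + 1) ^ 2 ≤ 1 / ((N : ℝ) + 1) := by
        apply div_le_div_of_nonneg_left (by norm_num) (by positivity)
        nlinarith
      have h5 : 2 / ((N : ℝ) + 1) = 1 / ((N : ℝ) + 1) + 1 / ((N : ℝ) + 1) := by ring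
      linarith
    · have h1 := ih hNa
      refine (abs_add_le _ _).trans ((add_le_add h1 hst).trans ?_)
      have h3 : 1 / ((N : ℝ) + 1) ^ 2 ≤ 1 / N - 1 / ((N : ℝ) + 1) := by
        rw [div_sub_div _ _ (by positivity) (by positivity)]
        rw [div_le_div_iff₀ (by positivity) (by positivity)]
        nlinarith
      have h4 : 4 * (1 + 2 * D) / ((N : ℝ) + 1) ^ 2 = 4 * (1 + 2 * D) * (1 / ((N : ℝ) + 1) ^ 2) := by ring
      rw [h4, ← mul_add]
      apply mul_le_mul_of_nonneg_left _ hK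
      linarith

/-- the sum over `j` -/
theorem jsum (hq : ContDiff ℝ 1 qr) (hq1 : ∀ y, |qr y| ≤ 1) (hD : ∀ y, |deriv qr y| ≤ D)
    (hB : ∀ y, B ≤ |y| → qr y = 0) (hs : 1 ≤ s) {N : ℕ} (hN : s * B ≤ Real.log N + c) (hc : c ≤ -(s * B)) :
    |∑ j ∈ Icc 1 N, fq qr s c j - s * ∫ u, qr u ^ 2| ≤ 8 * (1 + 2 * D) * Real.exp (s * B + c) := by
  have hs0 : 0 < s := by linarith
  have hD0 : 0 ≤ D := (abs_nonneg _).trans (hD 0)
  have hPR : PR qr B s c N = s * ∫ u, qr u ^ 2 := by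
    unfold PR
    rw [z3 hB]
    rw [le_div_iff₀ hs0]
    linarith
  have ha : 1 ≤ Real.exp (-(s * B) - c) := Real.one_le_exp (by linarith)
  have hac : Real.log (Real.exp (-(s * B) - c)) + c ≤ -(s * B) := by
    rw [Real.log_exp]; linarith
  obtain ⟨h1, h2⟩ := core hq hq1 hD hB hs ha hac N
  rw [← hPR]
  rcases le_or_gt (N : ℝ) (Real.exp (-(s * B) - c)) with h | h
  · obtain ⟨h3, h4⟩ := h1 h
    rw [h3, h4, sub_zero, abs_zero]
    positivity
  · refine (h2 h).trans ?_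
    have h5 : 1 / Real.exp (-(s * B) - c) = Real.exp (s * B + c) := by
      rw [one_div, ← Real.exp_neg]
      congr 1
      ring
    have h6 : 2 / Real.exp (-(s * B) - c) = 2 * Real.exp (s * B + c) := by rw [← h5]; ring
    rw [h6]
    have h7 : 0 ≤ 1 / (N : ℝ) := by positivity
    calc 4 * (1 + 2 * D) * (2 * Real.exp (s * B + c) - 1 / N) ≤ 4 * (1 + 2 * D) * (2 * Real.exp (s * B + c)) := by
          apply mul_le_mul_of_nonneg_left _ (by positivity)
          linarith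
      _ = _ := by ring

end

end Pool.Agent.Helper33.HG
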