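import Pool.Agent.Helper57.HL.Fs
import Pool.Agent.Helper57.HL.Dv
import Pool.Agent.Helper69.HG.Stm

/-!
# HALL GAPS: the mean square of `ζ M` (block N7 of NG, helper33)
-/

set_option autoImplicit false
open MeasureTheory Set Filter Topology Complex
open Pool.Agent.Helper57.ED Pool.Agent.Helper57.HL Pool.Agent.Helper69.HG

namespace Pool.Agent.Helper33.HG

/-- block N7 (`C` absolute) -/
def N7 : Prop := ∃ C : ℝ, 0 < C ∧ ∃ b₀ : ℕ, ∀ b ≥ b₀, ∃ ε₀ : ℝ, 0 < ε₀ ∧ ∀ ε : ℝ, 0 < ε → ε ≤ ε₀ →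
  ∃ T₀ : ℝ, ∀ T : ℝ, T₀ ≤ T → ∀ a : ℕ → ℝ, IsCM T ε b a →
    Integrable (fun t : ℝ => PW (T + 1 / 2) (t - 3 * T / 2) * (‖ze t‖ ^ 2 * ‖Mo (XM T) a (1 / 2 + I * t)‖ ^ 2)) ∧
    ∫ t : ℝ, PW (T + 1 / 2) (t - 3 * T / 2) * (‖ze t‖ ^ 2 * ‖Mo (XM T) a (1 / 2 + I * t)‖ ^ 2) ≤ C / ε

lemma ev33 (δ A B : ℝ) (hδ : 0 < δ) : ∃ T₀ : ℝ, ∀ T : ℝ, T₀ ≤ T → 1 ≤ T ∧ B ≤ Real.log T ∧
    T ^ (1 / 20 : ℝ) ≤ δ * T ∧ T ^ (1 / 20 : ℝ) * (A * Real.log T) ≤ δ * T := by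
  have h1 : ∀ᶠ T : ℝ in atTop, 1 ≤ T := eventually_ge_atTop 1
  have h2 : ∀ᶠ T : ℝ in atTop, B ≤ Real.log T := Real.tendsto_log_atTop.eventually_ge_atTop B
  have h3 : ∀ᶠ T : ℝ in atTop, (1 + |A|) / δ ≤ T ^ (9 / 20 : ℝ) :=
    (tendsto_rpow_atTop (by norm_num : (0:ℝ) < 9 / 20)).eventually_ge_atTop _
  have h4 : ∀ᶠ T : ℝ in atTop, ‖Real.log T‖ ≤ 1 * ‖T ^ (1 / 2 : ℝ)‖ :=
    (isLittleO_log_rpow_atTop (by norm_num : (0:ℝ) < 1 / 2)).bound one_pos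
  obtain ⟨T₀, h⟩ := eventually_atTop.1 (h1.and (h2.and (h3.and h4)))
  refine ⟨T₀, fun T hT => ?_⟩
  obtain ⟨a1, a2, a3, a4⟩ := h T hT
  have hT0 : 0 < T := by linarith
  have e1 : T ^ (9 / 20 : ℝ) * T ^ (11 / 20 : ℝ) = T := by
    rw [← Real.rpow_add hT0]; norm_num
  have e2 : T ^ (1 / 20 : ℝ) * T ^ (1 / 2 : ℝ) = T ^ (11 / 20 : ℝ) := by
    rw [← Real.rpow_add hT0]; norm_num
  have e3 : 1 + |A| ≤ δ * T ^ (9 / 20 : ℝ) := by
    rw [div_le_iff₀ hδ] at a3; linarith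
  have e4 : (1 + |A|) * T ^ (11 / 20 : ℝ) ≤ δ * T := by
    calc (1 + |A|) * T ^ (11 / 20 : ℝ) ≤ (δ * T ^ (9 / 20 : ℝ)) * T ^ (11 / 20 : ℝ) := by gcongr
      _ = δ * T := by rw [mul_assoc, e1]
  have hp : 0 ≤ T ^ (11 / 20 : ℝ) := by positivity
  refine ⟨a1, a2, ?_, ?_⟩
  · calc T ^ (1 / 20 : ℝ) ≤ T ^ (11 / 20 : ℝ) := Real.rpow_le_rpow_of_exponent_le a1 (by norm_num)
      _ ≤ (1 + |A|) * T ^ (11 / 20 : ℝ) := le_mul_of_one_le_left hp (by linarith [abs_nonneg A])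
      _ ≤ δ * T := e4
  · have hl : Real.log T ≤ T ^ (1 / 2 : ℝ) := by
      rw [one_mul, Real.norm_eq_abs, Real.norm_eq_abs, abs_of_nonneg (by positivity : 0 ≤ T ^ (1 / 2 : ℝ))] at a4
      exact (le_abs_self _).trans a4
    have hl0 : 0 ≤ Real.log T := Real.log_nonneg a1
    calc T ^ (1 / 20 : ℝ) * (A * Real.log T) ≤ T ^ (1 / 20 : ℝ) * (|A| * T ^ (1 / 2 : ℝ)) := by
          gcongr
          · exact le_abs_self A
      _ = |A| * T ^ (11 / 20 : ℝ) := by rw [← e2]; ring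
      _ ≤ (1 + |A|) * T ^ (11 / 20 : ℝ) := by gcongr; linarith
      _ ≤ δ * T := e4

lemma S1_le33 {T : ℝ} (hT : 1 ≤ T) {a : ℕ → ℝ} (ha : ∀ n, |a n| ≤ 1) : S1 (XM T) a ^ 2 ≤ T ^ (1 / 20 : ℝ) := by
  have h1 : S1 (XM T) a ≤ T ^ (1 / 40 : ℝ) := by
    unfold S1
    calc ∑ h ∈ Finset.Icc 1 (XM T), |a h| ≤ ∑ h ∈ Finset.Icc 1 (XM T), (1:ℝ) := Finset.sum_le_sum fun h _ => ha h
      _ = (XM T : ℝ) := by simp
      _ ≤ T ^ (1 / 40 : ℝ) := Nat.floor_le (by positivity)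
  calc S1 (XM T) a ^ 2 ≤ (T ^ (1 / 40 : ℝ)) ^ 2 := pow_le_pow_left₀ (S1_nonneg57 _ _) h1 2
    _ = T ^ (1 / 20 : ℝ) := by
      rw [← Real.rpow_natCast, ← Real.rpow_mul (by linarith)]
      norm_num

lemma Q1_scale33 (X : ℕ) (a : ℕ → ℝ) (s σ : ℝ) : Q1 X (fun n => s * a n) σ = s ^ 2 * Ql X a σ := by
  unfold Q1 Ql
  rw [Finset.mul_sum]
  refine Finset.sum_congr rfl fun h _ => ?_
  rw [Finset.mul_sum]
  refine Finset.sum_congr rfl fun k _ => ?_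
  ring

lemma Q2_scale33 (X : ℕ) (a : ℕ → ℝ) (s σ : ℝ) : Q2 X (fun n => s * a n) σ = s ^ 2 * Qg X a σ := by
  unfold Q2 Qg
  rw [Finset.mul_sum]
  refine Finset.sum_congr rfl fun h _ => ?_
  rw [Finset.mul_sum]
  refine Finset.sum_congr rfl fun k _ => ?_
  ring

lemma Mo_scale33 (X : ℕ) (a : ℕ → ℝ) (s : ℝ) (w : ℂ) : Mo X (fun n => s * a n) w = s * Mo X a w := by
  unfold Mo
  rw [Finset.mul_sum]
  refine Finset.sum_congr rfl fun h _ => ?_
  push_cast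
  ring

/-- the comparison at `σ = 1/2 + y/L` -/
lemma comp33 {L V ε C₀ y z c q g η δ : ℝ} (hL : 0 < L) (hV : 0 ≤ V) (hε : 0 < ε) (hy : 0 < y)
    (hC : ε * (L * V) ≤ C₀) (hη : 0 ≤ η) (hη1 : η ≤ 1)
    (hz : |z - L / (2 * y)| ≤ 1) (hc : |c - Real.exp (-(2 * y)) * (L / (2 * y))| ≤ 65 / 2)
    (hq : |q - V| ≤ η * V) (hg : |g - V| ≤ η * V)
    (h1 : 67 * C₀ ≤ δ / 4 * L) (h2 : η * C₀ ≤ δ / 4 * y) :
    |ε * (z * q - c * g) - ε * (L * V) * ((1 - Real.exp (-(2 * y))) / (2 * y))| ≤ δ / 2 := by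
  set E := Real.exp (-(2 * y)) with hE
  have hE0 : 0 < E := Real.exp_pos _
  have hE1 : E ≤ 1 := Real.exp_le_one_iff.2 (by linarith)
  set w := L / (2 * y) with hw
  have hw0 : 0 < w := by positivity
  have e1 : ε * (z * q - c * g) - ε * (L * V) * ((1 - E) / (2 * y)) =
      ε * ((z - w) * q + w * (q - V) - (c - E * w) * g - E * w * (g - V)) := by
    rw [hw]; field_simp; ring
  have hq2 : |q| ≤ 2 * V := by
    have := abs_le.1 hq
    rw [abs_le]; constructor <;> nlinarith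
  have hg2 : |g| ≤ 2 * V := by
    have := abs_le.1 hg
    rw [abs_le]; constructor <;> nlinarith
  have b1 : |(z - w) * q| ≤ 1 * (2 * V) := by rw [abs_mul]; gcongr
  have b2 : |w * (q - V)| ≤ w * (η * V) := by rw [abs_mul, abs_of_pos hw0]; gcongr
  have b3 : |(c - E * w) * g| ≤ 65 / 2 * (2 * V) := by rw [abs_mul]; gcongr
  have b4 : |E * w * (g - V)| ≤ w * (η * V) := by
    rw [abs_mul, abs_of_pos (by positivity)]
    calc E * w * |g - V| ≤ 1 * w * (η * V) := by gcongr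
      _ = _ := by ring
  have b5 : |(z - w) * q + w * (q - V) - (c - E * w) * g - E * w * (g - V)| ≤ 67 * V + 2 * w * (η * V) := by
    rw [abs_le] at b1 b2 b3 b4 ⊢
    constructor <;> linarith
  rw [e1, abs_mul, abs_of_pos hε]
  have k1 : ε * V ≤ C₀ / L := by
    rw [le_div_iff₀ hL]; linarith
  have k2 : ε * (67 * V) ≤ δ / 4 := by
    calc ε * (67 * V) = 67 * (ε * V) := by ring
      _ ≤ 67 * (C₀ / L) := by gcongr
      _ = 67 * C₀ / L := by ring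
      _ ≤ δ / 4 := by rw [div_le_iff₀ hL]; exact h1
  have k3 : ε * (2 * w * (η * V)) ≤ δ / 4 := by
    calc ε * (2 * w * (η * V)) = η * (ε * (L * V)) / y := by rw [hw]; field_simp
      _ ≤ η * C₀ / y := by gcongr
      _ ≤ δ / 4 := by rw [div_le_iff₀ hy]; exact h2
  calc ε * |(z - w) * q + w * (q - V) - (c - E * w) * g - E * w * (g - V)| ≤ ε * (67 * V + 2 * w * (η * V)) := by gcongr
    _ = ε * (67 * V) + ε * (2 * w * (η * V)) := by ring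
    _ ≤ δ / 4 + δ / 4 := add_le_add k2 k3
    _ = δ / 2 := by ring

/-- Block N7. -/
theorem n7 (hCS : CS) (hSV : SV) : N7 := by
  obtain ⟨-, c₀, C₀, hc₀, hC₀, hCS⟩ := hCS
  set K : ℝ := max (3 / 2) C₀ with hK
  have hK0 : 0 ≤ K := le_trans (by norm_num) (le_max_left _ _)
  obtain ⟨x0, hx0, hx⟩ := hl_spec (b := 2) (K := K) (ν := 0) (ε := 1) (by norm_num) hK0 one_pos
  obtain ⟨δ, hδ, hS⟩ := hx x0 hx0 le_rfl
  set η : ℝ := min 1 (δ / 4 * x0 / C₀) with hη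
  have hη0 : 0 < η := by rw [hη]; positivity
  have hη1 : η ≤ 1 := min_le_left _ _
  have hη2 : η * C₀ ≤ δ / 4 * x0 := by
    have : η ≤ δ / 4 * x0 / C₀ := min_le_right _ _
    rwa [le_div_iff₀ hC₀] at this
  obtain ⟨b₀, hb⟩ := hSV η (3 * x0) hη0 (by linarith)
  refine ⟨C₀ + 1, by linarith, b₀, fun b hbb => ?_⟩
  obtain ⟨ε₀, hε₀, he⟩ := hb b hbb
  refine ⟨min ε₀ 1, lt_min hε₀ one_pos, fun ε hε hεε => ?_⟩
  obtain ⟨T₁, hT₁⟩ := he ε hε (hεε.trans (min_le_left _ _))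
  have hε1 : ε ≤ 1 := hεε.trans (min_le_right _ _)
  obtain ⟨T₂, hT₂⟩ := hCS ε hε hε1
  obtain ⟨T₃, hT₃⟩ := ev33 (δ / 2) (75 / (4 * x0)) (max 1 (max (12 * x0) (268 * C₀ / δ))) (by positivity)
  obtain ⟨T₄, hT₄⟩ := eventually_atTop.1 (eventually_ge_atTop (1 / δ))
  refine ⟨max (max T₁ T₂) (max T₃ T₄), fun T hTT a ha => ?_⟩
  have hv1 := hT₁ T (((le_max_left _ _).trans (le_max_left _ _)).trans hTT) a ha
  obtain ⟨-, hv2⟩ := hT₂ T (((le_max_right _ _).trans (le_max_left _ _)).trans hTT)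
  obtain ⟨hT1, hLB, hev1, hev2⟩ := hT₃ T (((le_max_left _ _).trans (le_max_right _ _)).trans hTT)
  have hev3 : 1 / δ ≤ T := hT₄ T (((le_max_right _ _).trans (le_max_right _ _)).trans hTT)
  set L := Real.log T with hLdef
  have hL1 : 1 ≤ L := (le_max_left _ _).trans hLB
  have hL0 : 0 < L := by linarith
  have hL2 : 12 * x0 ≤ L := ((le_max_left _ _).trans (le_max_right _ _)).trans hLB
  have hL3 : 67 * C₀ ≤ δ / 4 * L := by
    have : 268 * C₀ / δ ≤ L := ((le_max_right _ _).trans (le_max_right _ _)).trans hLB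
    rw [div_le_iff₀ hδ] at this
    linarith
  have hT0 : 0 < T := by linarith
  set V := Vp T ε with hV
  have hV0 : 0 ≤ V := by
    rw [hV]; unfold Vp
    refine Finset.prod_nonneg fun p hp => ?_
    have : (1:ℝ) ≤ p := by exact_mod_cast (Finset.mem_Icc.1 (Finset.mem_filter.1 hp).1).1
    have : 1 / (p:ℝ) ≤ 1 := by rw [div_le_one (by linarith)]; exact this
    linarith
  have hLV : ε * (L * V) ≤ C₀ := by
    rw [le_div_iff₀ hε] at hv2
    linarith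
  set X := XM T with hX
  set s : ℝ := Real.sqrt ε with hs
  have hs2 : s ^ 2 = ε := Real.sq_sqrt hε.le
  have hs0 : 0 < s := Real.sqrt_pos.2 hε
  have hs1 : s ≤ 1 := by rw [hs]; exact Real.sqrt_le_one.2 hε1
  set a' : ℕ → ℝ := fun n => s * a n with ha'
  have ha'1 : ∀ n, |a' n| ≤ 1 := by
    intro n
    simp only [ha', abs_mul, abs_of_pos hs0]
    calc s * |a n| ≤ 1 * 1 := by gcongr; exact ha.bd n
      _ = 1 := one_mul 1
  have hSS : S1 X a' ^ 2 ≤ T ^ (1 / 20 : ℝ) := S1_le33 hT1 ha'1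
  have hSS0 : 0 ≤ S1 X a' ^ 2 := sq_nonneg _
  -- the comparison for y = j x0
  have hcmp : ∀ j : ℝ, 1 ≤ j → j ≤ 3 → |Fs X a' T (3 * T / 2) (1 / 2 + j * x0 / L) -
      ε * (L * V) * ((1 - Real.exp (-(2 * (j * x0)))) / (2 * (j * x0)))| ≤ δ := by
    intro j hj1 hj3
    have hy : 0 < j * x0 := by positivity
    set y := j * x0 with hydef
    have hyx : x0 ≤ y := by rw [hydef]; nlinarith
    have hy3 : y ≤ 3 * x0 := by rw [hydef]; nlinarith
    have hσ : 1 / 2 < 1 / 2 + y / L := by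
      have : 0 < y / L := by positivity
      linarith
    have hσ1 : 1 / 2 + y / L ≤ 3 / 4 := by
      have : y / L ≤ 1 / 4 := by rw [div_le_iff₀ hL0]; linarith
      linarith
    obtain ⟨c, hc0, hc1, hc2⟩ := hl_fs (l := T) (τ := 3 * T / 2) hT1 hσ hσ1
    have hτ : 1 + |3 * T / 2| / T = 5 / 2 := by
      rw [abs_of_pos (by positivity)]; field_simp; norm_num
    have h2σ : 2 * (1 / 2 + y / L) - 1 = 2 * y / L := by ring
    have hexp : T ^ (1 - 2 * (1 / 2 + y / L)) = Real.exp (-(2 * y)) := by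
      rw [Real.rpow_def_of_pos hT0, ← hLdef]
      congr 1
      field_simp
      ring
    have hdiv : 1 / (2 * y / L) = L / (2 * y) := by field_simp
    have hdiv2 : Real.exp (-(2 * y)) / (2 * y / L) = Real.exp (-(2 * y)) * (L / (2 * y)) := by field_simp
    rw [hexp, h2σ, hdiv2, hτ] at hc1
    have hz := zs_c hσ
    rw [h2σ, hdiv] at hz
    obtain ⟨hq, hg⟩ := hv1 (1 / 2 + y / L) hσ.le (by gcongr)
    have key := comp33 (z := zs (1 / 2 + y / L)) (c := c) (δ := δ) hL0 hV0 hε hy hLV hη0.le hη1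
      (by rw [abs_le]; constructor <;> linarith [hz.1, hz.2]) (hc1.trans (by norm_num)) hq hg hL3
      (hη2.trans (by gcongr))
    have h3 := hc2 X a'
    rw [Q1_scale33, Q2_scale33, hs2, hτ, h2σ] at h3
    have h4 : S1 X a' ^ 2 * (15 * (5 / 2) / (T * (2 * y / L))) ≤ δ / 2 := by
      calc S1 X a' ^ 2 * (15 * (5 / 2) / (T * (2 * y / L))) = S1 X a' ^ 2 * (75 / (4 * y) * L) / T := by
            field_simp; ring
        _ ≤ T ^ (1 / 20 : ℝ) * (75 / (4 * x0) * L) / T := by gcongr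
        _ ≤ δ / 2 := by rw [div_le_iff₀ hT0]; exact hev2
    have e : zs (1 / 2 + y / L) * (ε * Ql X a (1 / 2 + y / L)) - c * (ε * Qg X a (1 / 2 + y / L)) =
        ε * (zs (1 / 2 + y / L) * Ql X a (1 / 2 + y / L) - c * Qg X a (1 / 2 + y / L)) := by ring
    rw [e] at h3
    calc _ ≤ |Fs X a' T (3 * T / 2) (1 / 2 + y / L) - ε * (zs (1 / 2 + y / L) * Ql X a (1 / 2 + y / L) - c * Qg X a (1 / 2 + y / L))| +
          |ε * (zs (1 / 2 + y / L) * Ql X a (1 / 2 + y / L) - c * Qg X a (1 / 2 + y / L)) -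
            ε * (L * V) * ((1 - Real.exp (-(2 * y))) / (2 * y))| := abs_sub_le _ _ _
      _ ≤ δ / 2 + δ / 2 := add_le_add (h3.trans h4) key
      _ = δ := by ring
  have hΦ : ∀ y : ℝ, 0 < y → |ε * (L * V) * ((1 - Real.exp (-(2 * y))) / (2 * y))| ≤ C₀ := by
    intro y hy
    have h1 : 0 ≤ (1 - Real.exp (-(2 * y))) / (2 * y) := by
      have : Real.exp (-(2 * y)) ≤ 1 := Real.exp_le_one_iff.2 (by linarith)
      exact div_nonneg (by linarith) (by linarith)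
    have h2 : (1 - Real.exp (-(2 * y))) / (2 * y) ≤ 1 := by
      rw [div_le_one (by linarith)]
      linarith [Real.add_one_le_exp (-(2 * y))]
    rw [abs_of_nonneg (by positivity)]
    calc ε * (L * V) * ((1 - Real.exp (-(2 * y))) / (2 * y)) ≤ C₀ * 1 := by gcongr
      _ = C₀ := mul_one _
  have hexp2 : Real.exp (2 * L) = T * T := by
    rw [two_mul, Real.exp_add, hLdef, Real.exp_log hT0]
  have hres := (hS X a' T (3 * T / 2) L
    (ε * (L * V) * ((1 - Real.exp (-(2 * (1 * x0)))) / (2 * (1 * x0))))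
    (ε * (L * V) * ((1 - Real.exp (-(2 * (2 * x0)))) / (2 * (2 * x0))))
    (ε * (L * V) * ((1 - Real.exp (-(2 * (3 * x0)))) / (2 * (3 * x0))))
    hT1 hev3 hL1
    (by
      rw [abs_of_pos (by positivity)]
      have : 3 / 2 ≤ K := le_max_left _ _
      nlinarith)
    (hSS.trans (hev1.trans (by nlinarith)))
    (by
      rw [hexp2]
      calc S1 X a' ^ 2 * T ≤ (δ / 2 * T) * T := by gcongr; exact hSS.trans hev1
        _ ≤ δ * (T * T) := by nlinarith [mul_pos hT0 hT0])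
    ((hΦ _ (by positivity)).trans (le_max_right _ _)) ((hΦ _ (by positivity)).trans (le_max_right _ _))
    ((hΦ _ (by positivity)).trans (le_max_right _ _))
    (by simpa using hcmp 1 le_rfl (by norm_num)) (hcmp 2 (by norm_num) (by norm_num)) (hcmp 3 (by norm_num) le_rfl)).1
  have hF : Fs X a' T (3 * T / 2) (1 / 2) ≤ C₀ + 1 := by
    have h1 := (abs_le.1 hres).2
    have h2 := (abs_le.1 (hΦ (1 * x0) (by positivity))).2
    linarith
  obtain ⟨hI, hE⟩ := hl_planch X a' (σ := 1 / 2) (l := T) (3 * T / 2) (by norm_num) (by norm_num) hT0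
  have hpt : ∀ t : ℝ, PW (T + 1 / 2) (t - 3 * T / 2) * (‖ze t‖ ^ 2 * ‖Mo X a (1 / 2 + I * t)‖ ^ 2) =
      1 / ε * (PW (T + 1 / 2) (t - 3 * T / 2) * ‖riemannZeta (((1 / 2 : ℝ) : ℂ) + t * I) * Mo X a' (((1 / 2 : ℝ) : ℂ) + t * I)‖ ^ 2) := by
    intro t
    have e : (((1 / 2 : ℝ) : ℂ) + t * I) = 1 / 2 + I * t := by push_cast; ring
    rw [e, Mo_scale33, norm_mul, norm_mul, Complex.norm_real, Real.norm_eq_abs, abs_of_pos hs0, mul_pow, mul_pow, hs2]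
    unfold ze
    field_simp
  simp_rw [hpt]
  refine ⟨hI.const_mul _, ?_⟩
  rw [integral_const_mul, hE]
  change 1 / ε * Fs X a' T (3 * T / 2) (1 / 2) ≤ _
  calc 1 / ε * Fs X a' T (3 * T / 2) (1 / 2) ≤ 1 / ε * (C₀ + 1) := by gcongr
    _ = (C₀ + 1) / ε := by ring

end Pool.Agent.Helper33.HG
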